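import Pool.Agent.H74.HN.GENJ

/-!
# Sizes of the classes `E` and of the polynomial of Riemann-Roch
-/

namespace Pool.Agent.H74.HN

open Filter Topology

theorem three_geo (K : ℕ) : 3 * Jet.geo K + 1 = 4 ^ K := by
  induction K with
  | zero => simp [Jet.geo]
  | succ K ih =>
    have h : Jet.geo (K + 1) = Jet.geo K + 4 ^ K := by
      simp [Jet.geo, Finset.sum_range_succ]
    rw [h, pow_succ]
    omega

theorem xE_le (w C K m : ℕ) (hC : C ≤ m) (hK : K + 1 ≤ m) :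
    (xE w C K m : ℝ) ≤ (8 * w + 3) * m := by
  unfold xE
  push_cast
  have h1 : (C : ℝ) ≤ m := by exact_mod_cast hC
  have h2 : (K : ℝ) + 1 ≤ m := by exact_mod_cast hK
  have h3 : 8 * (w : ℝ) * ((K : ℝ) + 1) ≤ 8 * w * m := by gcongr
  linarith

theorem le_xE (w C K m : ℕ) : 2 * (m : ℝ) ≤ xE w C K m := by
  unfold xE
  push_cast
  have h1 : (0 : ℝ) ≤ (C : ℝ) + 8 * w * (K + 1) := by positivity
  linarith

theorem yE_le (w : ℕ) (c : ℤ) (K m : ℕ) (hc : 0 ≤ c) (hm : 1 ≤ m) :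
    (yE w c K m : ℝ) ≤ (11 * w + 2) * m * c * ((2 : ℝ) ^ K) ^ 2 := by
  have h1 : (4 : ℝ) ^ K = ((2 : ℝ) ^ K) ^ 2 := by
    rw [← pow_mul, mul_comm, pow_mul]
    norm_num
  have h2 : 3 * (Jet.geo (K + 1) : ℝ) ≤ 4 * 4 ^ K := by
    have h3 := three_geo (K + 1)
    rw [pow_succ] at h3
    have h4 : ((3 * Jet.geo (K + 1) + 1 : ℕ) : ℝ) = ((4 ^ K * 4 : ℕ) : ℝ) := by rw [h3]
    push_cast at h4
    linarith
  have hc' : (0 : ℝ) ≤ c := by exact_mod_cast hc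
  have hm' : (1 : ℝ) ≤ m := by exact_mod_cast hm
  unfold yE
  push_cast
  rw [h1] at h2 ⊢
  have hR : 0 ≤ ((2 : ℝ) ^ K) ^ 2 := by positivity
  generalize ((2 : ℝ) ^ K) ^ 2 = S at *
  have hw : (0 : ℝ) ≤ w := Nat.cast_nonneg _
  have h5 : 8 * (w : ℝ) * (c : ℝ) * (Jet.geo (K + 1) : ℝ) ≤ 11 * w * (c * S) := by
    have h6 : (w : ℝ) * c * (3 * (Jet.geo (K + 1) : ℝ)) ≤ w * c * (4 * S) :=
      mul_le_mul_of_nonneg_left h2 (by positivity)
    have h7 : 0 ≤ (w : ℝ) * (c * S) := by positivity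
    nlinarith
  have h8 : 11 * (w : ℝ) * (c * S) ≤ 11 * w * (c * S) * m :=
    le_mul_of_one_le_right (by positivity) hm'
  have h9 : (11 * (w : ℝ) + 2) * m * c * S = 11 * w * (c * S) * m + 2 * m * c * S := by ring
  rw [h9]
  linarith

theorem le_yE (w : ℕ) (c : ℤ) (K m : ℕ) (hc : 0 ≤ c) :
    2 * m * c * ((2 : ℝ) ^ K) ^ 2 ≤ (yE w c K m : ℝ) := by
  have h1 : (4 : ℝ) ^ K = ((2 : ℝ) ^ K) ^ 2 := by
    rw [← pow_mul, mul_comm, pow_mul]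
    norm_num
  have hc' : (0 : ℝ) ≤ c := by exact_mod_cast hc
  unfold yE
  push_cast
  rw [h1]
  have h2 : (0 : ℝ) ≤ 8 * w * c * Jet.geo (K + 1) := by positivity
  linarith

/-- the square of a class `X A + Y L`, from above -/
theorem q_le (a l c x R X Y a1 a2 : ℝ) (ha : 0 ≤ a) (hl : 0 ≤ l) (hc : 0 ≤ c) (hx : 1 ≤ x)
    (hR : 1 ≤ R) (ha1 : 0 ≤ a1) (hX0 : 0 ≤ X) (hX : X ≤ a1 * x)
    (hY0 : 0 ≤ Y) (hY : Y ≤ a2 * x * c * R ^ 2) :
    X ^ 2 * a + 2 * X * Y * l ≤ (a1 ^ 2 * a + 2 * a1 * a2 * c * l) * (x ^ 2 * R ^ 2) := by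
  have h1 : X ^ 2 ≤ (a1 * x) ^ 2 := pow_le_pow_left₀ hX0 hX 2
  have h2 : X * Y ≤ a1 * x * (a2 * x * c * R ^ 2) := mul_le_mul hX hY hY0 (by positivity)
  have h3 : (1 : ℝ) ≤ R ^ 2 := one_le_pow₀ hR
  have h4 : x ^ 2 * a ≤ x ^ 2 * a * R ^ 2 := le_mul_of_one_le_right (by positivity) h3
  have h5 : X ^ 2 * a ≤ (a1 * x) ^ 2 * a := mul_le_mul_of_nonneg_right h1 ha
  have h6 : X * Y * l ≤ a1 * x * (a2 * x * c * R ^ 2) * l := mul_le_mul_of_nonneg_right h2 hl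
  have h7 : a1 ^ 2 * (x ^ 2 * a) ≤ a1 ^ 2 * (x ^ 2 * a * R ^ 2) :=
    mul_le_mul_of_nonneg_left h4 (by positivity)
  calc X ^ 2 * a + 2 * X * Y * l = X ^ 2 * a + 2 * (X * Y * l) := by ring
    _ ≤ (a1 * x) ^ 2 * a + 2 * (a1 * x * (a2 * x * c * R ^ 2) * l) := by linarith
    _ = a1 ^ 2 * (x ^ 2 * a) + 2 * a1 * a2 * c * l * (x ^ 2 * R ^ 2) := by ring
    _ ≤ a1 ^ 2 * (x ^ 2 * a * R ^ 2) + 2 * a1 * a2 * c * l * (x ^ 2 * R ^ 2) := by linarith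
    _ = (a1 ^ 2 * a + 2 * a1 * a2 * c * l) * (x ^ 2 * R ^ 2) := by ring

/-- the square of `E`, from below -/
theorem le_qE (a l c x R X Y : ℝ) (ha : 0 ≤ a) (hl : 0 ≤ l) (hc : 0 ≤ c) (hx : 1 ≤ x)
    (hX0 : 2 * x ≤ X) (hY0 : 2 * x * c * R ^ 2 ≤ Y) :
    8 * c * l * (x ^ 2 * R ^ 2) ≤ X ^ 2 * a + 2 * X * Y * l := by
  have hX00 : 0 ≤ X := by linarith
  have h2 : 2 * x * (2 * x * c * R ^ 2) ≤ X * Y := mul_le_mul hX0 hY0 (by positivity) hX00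
  have h6 : 2 * x * (2 * x * c * R ^ 2) * l ≤ X * Y * l := mul_le_mul_of_nonneg_right h2 hl
  have h7 : 0 ≤ X ^ 2 * a := by positivity
  calc 8 * c * l * (x ^ 2 * R ^ 2) = 2 * (2 * x * (2 * x * c * R ^ 2) * l) := by ring
    _ ≤ 2 * (X * Y * l) := by linarith
    _ ≤ X ^ 2 * a + 2 * X * Y * l := by linarith

/-- a polynomial with positive leading coefficient is of the order of its leading monomial -/
theorem poly_bounds (P : Polynomial ℝ) (n : ℕ) (hdeg : P.natDegree = n)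
    (hpos : 0 < P.leadingCoeff) :
    ∃ c C Q0 : ℝ, 0 < c ∧ 0 < C ∧ 1 ≤ Q0 ∧ ∀ Q : ℝ, Q0 ≤ Q →
      c * Q ^ n ≤ P.eval Q ∧ P.eval Q ≤ C * Q ^ n := by
  have hP : P ≠ 0 := by
    rintro rfl
    simp at hpos
  have h1 : Tendsto (fun x : ℝ => P.eval x / ((Polynomial.X ^ n : Polynomial ℝ).eval x)) atTop
      (𝓝 (P.leadingCoeff / (Polynomial.X ^ n : Polynomial ℝ).leadingCoeff)) := by
    refine Polynomial.div_tendsto_leadingCoeff_div_of_degree_eq P (Polynomial.X ^ n) ?_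
    rw [Polynomial.degree_X_pow, Polynomial.degree_eq_natDegree hP, hdeg]
  simp only [Polynomial.eval_pow, Polynomial.eval_X, Polynomial.leadingCoeff_X_pow,
    div_one] at h1
  have h2 := h1.eventually (Ioo_mem_nhds (half_lt_self hpos)
    (show P.leadingCoeff < 2 * P.leadingCoeff by linarith))
  obtain ⟨Q0, hQ0⟩ := eventually_atTop.1 h2
  refine ⟨P.leadingCoeff / 2, 2 * P.leadingCoeff, max Q0 1, by positivity, by positivity,
    le_max_right _ _, fun Q hQ => ?_⟩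
  have h3 := hQ0 Q ((le_max_left _ _).trans hQ)
  have hQ1 : 1 ≤ Q := (le_max_right _ _).trans hQ
  have hQn : 0 < Q ^ n := by positivity
  obtain ⟨h4, h5⟩ := h3
  rw [lt_div_iff₀ hQn] at h4
  rw [div_lt_iff₀ hQn] at h5
  exact ⟨h4.le, h5.le⟩

theorem exists_D (n N : ℕ) (hn : 1 ≤ n) : ∃ D : ℕ, 2 * D ^ n ≤ N ∧ N < 2 * (D + 1) ^ n := by
  classical
  have hex : ∃ D : ℕ, N < 2 * (D + 1) ^ n := by
    refine ⟨N, ?_⟩
    have h1 : N + 1 ≤ (N + 1) ^ n := Nat.le_self_pow (by omega) _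
    omega
  refine ⟨Nat.find hex, ?_, Nat.find_spec hex⟩
  rcases Nat.eq_zero_or_pos (Nat.find hex) with h0 | h0
  · rw [h0, zero_pow (by omega)]
    simp
  · have h5 := Nat.find_min hex (m := Nat.find hex - 1) (by omega)
    rw [not_lt, Nat.sub_add_cancel h0] at h5
    exact h5

theorem log_factorial_le (N : ℕ) : Real.log (N.factorial) ≤ N * Real.log N := by
  have h1 : (N.factorial : ℝ) ≤ (N : ℝ) ^ N := by exact_mod_cast Nat.factorial_le_pow N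
  have h2 := Real.log_le_log (by exact_mod_cast N.factorial_pos) h1
  rwa [Real.log_pow] at h2

end Pool.Agent.H74.HN
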