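import Pool.Agent.H74.HN.END1
import Pool.Agent.H13.HN.ALGJ
import Pool.Agent.H35.HN.HTJ
import Pool.Agent.H13.HN.ENDNUM
import Pool.Agent.H85.HN.Card

/-!
# The end of the arithmetic argument, dimension `2n`

A residue disc, a parabolic group of rank `r >= 2n + 2k + 1` acting trivially on the base of the
Iitaka fibration (`k < n` its dimension) and dense orbits in the very general fibres lead to a
contradiction.
-/

namespace Pool.Agent.H74.HN

open scoped BigOperators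
open Pool.Agent.H83.HN Pool.Agent.H13.HN

variable {n : ℕ} {Lam : Type} [AddCommGroup Lam] {q : Lam → Lam → ℤ} {M : Manifold n Lam q}
  {L A : Lam} {r : ℕ}

theorem sum_le_mul {N Lc : ℕ} (f : Fin N → Fin Lc → ℝ) (b : ℝ) (h : ∀ i s, f i s ≤ b) :
    ∑ i, ∑ s, f i s ≤ N * (Lc * b) := by
  have h1 : ∀ i, ∑ s, f i s ≤ Lc * b := fun i => by
    calc ∑ s, f i s ≤ ∑ _s : Fin Lc, b := Finset.sum_le_sum fun s _ => h i s
      _ = Lc * b := by simp
  calc ∑ i, ∑ s, f i s ≤ ∑ _i : Fin N, (Lc * b) := Finset.sum_le_sum fun i _ => h1 i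
    _ = N * (Lc * b) := by simp

theorem sum_image_le {X : Type*} [DecidableEq X] {N Lc : ℕ} (l : Fin Lc → X) (c : ℕ)
    (hc : (Finset.univ.image l).card ≤ c) (f : Fin N → X → ℝ) (b : ℝ) (hb : 0 ≤ b)
    (h : ∀ i s, f i (l s) ≤ b) :
    ∑ i, ∑ u ∈ Finset.univ.image l, f i u ≤ N * (c * b) := by
  have h1 : ∀ i, ∑ u ∈ Finset.univ.image l, f i u ≤ c * b := fun i => by
    calc ∑ u ∈ Finset.univ.image l, f i u ≤ ∑ _u ∈ Finset.univ.image l, b := by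
          refine Finset.sum_le_sum fun u hu => ?_
          obtain ⟨s, -, rfl⟩ := Finset.mem_image.1 hu
          exact h i s
      _ = (Finset.univ.image l).card * b := by simp
      _ ≤ c * b := by
          refine mul_le_mul_of_nonneg_right ?_ hb
          exact_mod_cast hc
  calc ∑ i, ∑ u ∈ Finset.univ.image l, f i u ≤ ∑ _i : Fin N, (c * b) :=
        Finset.sum_le_sum fun i _ => h1 i
    _ = N * (c * b) := by simp

/-- **The end.** -/
theorem endgame (hadd : ∀ x y z, q (x + y) z = q x z + q y z) (hsymm : ∀ x y, q x y = q y x)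
    (I : Iitaka M L) (hk : I.k < n) (hA : A ∈ M.VeryAmple) (hL : L ∈ M.Nef) (hLL : q L L = 0)
    (hL0 : L ≠ 0) (π : Para M L A r) (hr : 2 * n + 2 * I.k + 1 ≤ r)
    (htriv : ∀ g, π.rho g ∈ I.triv)
    (hAC : ∃ bad : ℕ → Set M.P, (∀ i, IsClosed (bad i) ∧ bad i ≠ Set.univ) ∧
      ∀ x, (∀ i, x ∉ bad i) → ∀ m : Fin r → ℤ, m ≠ 0 →
        I.Fib x ⊆ closure (Set.range fun k : ℤ => π.rho (k • m) • x))
    {p : ℕ} [Fact p.Prime]
    (Dd : Disc q (M.NS : Set Lam) M.Ample (M.Sec A) n (fun m (y : M.P) => π.rho m • y)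
      (fun m x => M.pull (π.rho m) x) A {y | I.s 0 y ≠ 0} (fun y u => I.J y A u) p) : False := by
  classical
  have hn : 1 ≤ n := by omega
  have hAmp := M.va_ample hA
  have hLA : 0 < q L A := by
    rw [hsymm]
    exact M.ample_nef_q A hAmp L hL hL0
  have hAA : 0 < q A A := M.ample_q A hAmp
  -- the element `e`
  obtain ⟨e, he⟩ : ∃ e : Fin r → ℤ, e = Pi.single ⟨0, by omega⟩ 1 := ⟨_, rfl⟩
  have he0 : e ≠ 0 := by
    rw [he]
    intro h
    have := congrFun h ⟨0, by omega⟩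
    simp at this
  have he1 : ∀ i, |e i| ≤ 1 := by
    intro i
    rw [he]
    by_cases hi : i = ⟨0, by omega⟩
    · subst hi
      simp
    · rw [Pi.single_eq_of_ne hi]
      simp
  -- the determinant
  have hne : ∃ y, Dd.a 0 y ≠ 0 := by
    obtain ⟨x⟩ := Disc.nonempty Dd
    exact ⟨π.rho 0 • Dd.pt x, Dd.a_ne x 0⟩
  obtain ⟨C, c2, c3, hc2, hc3, x, hxs, hx0, j0, hst⟩ := start hadd hsymm I hk hA hL hLL hL0 π hr
    htriv hAC Dd.a Dd.span_a hne e he0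
  -- heights
  have hn0 : (0 : ℝ) < n := by exact_mod_cast hn
  obtain ⟨Ch, hCh, hHT⟩ := Pool.Agent.H35.HN.height_growth hsymm hadd π (by omega) hAmp
    (M.nef_NS hL) hLL hLA Dd (1 / (8 * n : ℝ)) (by positivity)
  have hbb : ∀ g, q (π.b g) (π.b g) ≤ 0 := by
    intro g
    by_cases hg : g = 0
    · rw [hg, map_zero, q_zero_left hadd]
    · exact (π.b_neg g hg).le
  have hq : ∀ g, 0 ≤ q (M.pull (π.rho g) A) A := by
    intro g
    rw [q_pull_A hadd]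
    have h1 := mul_nonneg (neg_nonneg.2 (hbb g)) (sq_nonneg (q L A))
    linarith
  obtain ⟨Ca, hCa, halg⟩ := alg_jet' Dd hq
  -- the real constants
  obtain ⟨ar, har⟩ : ∃ ar : ℝ, ar = (q A A : ℝ) := ⟨_, rfl⟩
  obtain ⟨l, hl⟩ : ∃ l : ℝ, l = (q L A : ℝ) := ⟨_, rfl⟩
  obtain ⟨b, hb⟩ : ∃ b : ℝ, b = (cb q π.b : ℝ) := ⟨_, rfl⟩
  have ha0 : 0 < ar := by rw [har]; exact_mod_cast hAA
  have hl1 : 1 ≤ l := by rw [hl]; exact_mod_cast hLA
  have hb0 : 0 ≤ b := by rw [hb]; exact_mod_cast cb_nonneg π.b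
  obtain ⟨cs, hcs⟩ : ∃ cs : ℝ, cs = 1 + r * (4 * n + 3) := ⟨_, rfl⟩
  have hcs1 : 1 ≤ cs := by
    have : (0 : ℝ) ≤ r * (4 * n + 3) := by positivity
    rw [hcs]
    linarith
  obtain ⟨c6, hc6⟩ : ∃ c6 : ℝ, c6 = ar + 2 * b * (4 * n + 3) ^ 2 * l ^ 2 := ⟨_, rfl⟩
  have hc60 : 0 ≤ c6 := by rw [hc6]; positivity
  obtain ⟨c9, hc9⟩ : ∃ c9 : ℝ, c9 = 8 * ((2 * n + 1 : ℕ) : ℝ) + 3 := ⟨_, rfl⟩
  have hc90 : 0 ≤ c9 := by rw [hc9]; positivity
  obtain ⟨c4, hc4, hnum⟩ := end_num n hn Ca Ch cs c3 c6 c9 Dd.d hCa.le hCh hcs1 hc3.le hc60 hc90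
    (Nat.cast_nonneg _)
  have hp2 : 2 ≤ p := (Fact.out : p.Prime).two_le
  have hlp : 0 < Real.log p := Real.log_pos (by exact_mod_cast hp2)
  obtain ⟨e1, -, e3⟩ := exponents n I.k r hk hr
  obtain ⟨t0, ht0, hfin⟩ := num_eps n I.k (8 * I.k + 1) (4 * (n - I.k)) 2 (8 * n) hk e1 e3
    c2 c4 (2 * cs) (Real.log p) hc2 hc4 (by linarith) hlp
  -- the choice of `t = 2^j`
  obtain ⟨j, hj⟩ : ∃ j : ℕ, j = j0 + ⌈t0⌉₊ := ⟨_, rfl⟩
  obtain ⟨K, hK⟩ : ∃ K : ℕ, K = 4 * (n - I.k) * j := ⟨_, rfl⟩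
  obtain ⟨m, hm⟩ : ∃ m : ℕ, m = 2 ^ ((8 * I.k + 1) * j) := ⟨_, rfl⟩
  have ht0j : t0 ≤ (2 : ℝ) ^ j := by
    refine (Nat.le_ceil t0).trans ?_
    have : ⌈t0⌉₊ ≤ 2 ^ j := (by omega : ⌈t0⌉₊ ≤ j).trans Nat.lt_two_pow_self.le
    exact_mod_cast this
  obtain ⟨hCm, hKm, N, hN1, hN2, g, tau, J, hg, htau, hdet⟩ := hst j (by omega) K m hK hm
  obtain ⟨xr, hxr⟩ : ∃ xr : ℝ, xr = (m : ℝ) := ⟨_, rfl⟩
  obtain ⟨R, hR⟩ : ∃ R : ℝ, R = (2 : ℝ) ^ K := ⟨_, rfl⟩
  have hm1 : 1 ≤ m := by omega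
  have hx1 : 1 ≤ xr := by rw [hxr]; exact_mod_cast hm1
  have hR1 : 1 ≤ R := by rw [hR]; exact one_le_pow₀ (by norm_num)
  have hxt : xr = ((2 : ℝ) ^ j) ^ (8 * I.k + 1) := by
    rw [hxr, hm, ← pow_mul, mul_comm j]
    push_cast
    rfl
  have hRt : R = ((2 : ℝ) ^ j) ^ (4 * (n - I.k)) := by
    rw [hR, hK, ← pow_mul, mul_comm j]
  rw [← hxr, ← hR] at hN1 hN2
  have hNpos : 1 ≤ N := by
    have h1 : (0 : ℝ) < N := lt_of_lt_of_le (by positivity) hN1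
    exact_mod_cast h1
  -- the list of translates
  obtain ⟨Lc, hLc⟩ : ∃ Lc : ℕ, Lc = (Jet.lstAll (2 * n + 1) e C K m).length := ⟨_, rfl⟩
  have hLc1 : (Lc : ℝ) ≤ c9 * xr := by
    have h1 : (Lc : ℝ) = (xE (2 * n + 1) C K m : ℝ) := by
      rw [hLc, Jet.length_lstAll, xE]
      push_cast
      ring
    rw [h1, hc9, hxr]
    exact xE_le _ C K m hCm hKm
  obtain ⟨x', hD, hh0⟩ := halg (T := (4 * n + 2) * m) g
    (fun s => (Jet.lstAll (2 * n + 1) e C K m).get s) tau J htau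
    ⟨x, hxs, fun i s => hx0 _, hdet⟩
  -- the coordinates of the group elements
  have hcoord : ∀ i s t, |((Jet.lstAll (2 * n + 1) e C K m).get s + g i) t| ≤
      (4 * n + 3) * (2 : ℤ) ^ K := by
    intro i s t
    have h1 := Jet.mem_lstAll (2 * n + 1) e C K m ((Jet.lstAll (2 * n + 1) e C K m).get s)
      (List.get_mem _ _) t
    have h2 := hg i t
    have h3 : (2 : ℤ) ^ K * |e t| ≤ 2 ^ K * 1 :=
      mul_le_mul_of_nonneg_left (he1 t) (by positivity)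
    rw [Pi.add_apply]
    refine (abs_add_le _ _).trans ?_
    linarith
  -- the degrees
  have hdeg : ∀ i s, (q (M.pull (π.rho ((Jet.lstAll (2 * n + 1) e C K m).get s + g i)) A) A : ℝ) ≤
      c6 * R ^ 2 := by
    intro i s
    have h1 := neg_q_b_le hadd hsymm π.b _ _ (hcoord i s)
    obtain ⟨v, hv⟩ : ∃ v, v = (Jet.lstAll (2 * n + 1) e C K m).get s + g i := ⟨_, rfl⟩
    rw [← hv] at h1 ⊢
    rw [q_pull_A hadd]
    have h2 : (-(q (π.b v) (π.b v)) : ℝ) ≤ b * ((4 * n + 3) * R) ^ 2 := by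
      have h3 : ((-(q (π.b v) (π.b v)) : ℤ) : ℝ) ≤
          ((cb q π.b * ((4 * n + 3) * (2 : ℤ) ^ K) ^ 2 : ℤ) : ℝ) := by exact_mod_cast h1
      push_cast at h3
      rw [hb, hR]
      exact h3
    push_cast
    rw [← har, ← hl]
    have hR2 : 1 ≤ R ^ 2 := one_le_pow₀ hR1
    have h4 := mul_le_mul_of_nonneg_right h2 (sq_nonneg l)
    have h5 : ar ≤ ar * R ^ 2 := le_mul_of_one_le_right ha0.le hR2
    have h6 : c6 * R ^ 2 = ar * R ^ 2 + 2 * (b * ((4 * n + 3) * R) ^ 2 * l ^ 2) := by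
      rw [hc6]
      ring
    rw [h6]
    linarith
  obtain ⟨D0, hD0⟩ : ∃ D0 : ℝ, D0 = ∑ i, ∑ s,
    (q (M.pull (π.rho ((Jet.lstAll (2 * n + 1) e C K m).get s + g i)) A) A : ℝ) := ⟨_, rfl⟩
  have hD00 : 0 ≤ D0 := by
    rw [hD0]
    exact Finset.sum_nonneg fun i _ => Finset.sum_nonneg fun s _ => by exact_mod_cast hq _
  have hD01 : D0 ≤ N * (Lc * (c6 * R ^ 2)) := by
    rw [hD0, hLc]
    exact sum_le_mul _ _ hdeg
  obtain ⟨h0, hh00⟩ : ∃ h0 : ℝ, h0 = Height.logHeight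
    (fun j => MvPowerSeries.constantCoeff (Dd.co x' 0 j)) := ⟨_, rfl⟩
  have h0nn : 0 ≤ h0 := by
    rw [hh00]
    exact Height.logHeight_nonneg _
  rw [← hh00, ← hD0] at hh0
  -- the heights of the translates
  obtain ⟨H, hH⟩ : ∃ H : ℝ, H = Ch * (cs * (1 + R)) ^ 2 *
    ((cs * (1 + R)) ^ (1 / (8 * n : ℝ)) + 1 + h0) := ⟨_, rfl⟩
  have hHb : ∀ i s, 1 + Height.logHeight (fun j => MvPowerSeries.constantCoeff
      (Dd.co x' ((Jet.lstAll (2 * n + 1) e C K m).get s + g i) j)) ≤ 1 + H := by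
    intro i s
    have h1 := hHT x' ((Jet.lstAll (2 * n + 1) e C K m).get s + g i)
    rw [← hh00] at h1
    have h2 : 1 + ∑ t, |((((Jet.lstAll (2 * n + 1) e C K m).get s + g i) t : ℤ) : ℝ)| ≤
        cs * (1 + R) := by
      have h3 : ∑ t, |((((Jet.lstAll (2 * n + 1) e C K m).get s + g i) t : ℤ) : ℝ)| ≤
          ∑ _t : Fin r, (4 * n + 3) * R := by
        refine Finset.sum_le_sum fun t _ => ?_
        have h4 : ((|((Jet.lstAll (2 * n + 1) e C K m).get s + g i) t| : ℤ) : ℝ) ≤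
            (((4 * n + 3) * (2 : ℤ) ^ K : ℤ) : ℝ) := by exact_mod_cast hcoord i s t
        push_cast at h4
        rw [hR]
        exact h4
      rw [Finset.sum_const, Finset.card_univ, Fintype.card_fin, nsmul_eq_mul] at h3
      have h5 : (0 : ℝ) ≤ r * (4 * n + 3) := by positivity
      rw [hcs]
      nlinarith
    have h3 : 0 ≤ 1 + ∑ t, |((((Jet.lstAll (2 * n + 1) e C K m).get s + g i) t : ℤ) : ℝ)| :=
      add_nonneg zero_le_one (Finset.sum_nonneg fun _ _ => abs_nonneg _)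
    have h4 : (1 + ∑ t, |((((Jet.lstAll (2 * n + 1) e C K m).get s + g i) t : ℤ) : ℝ)|) ^
        (1 / (8 * n : ℝ)) ≤ (cs * (1 + R)) ^ (1 / (8 * n : ℝ)) :=
      Real.rpow_le_rpow h3 h2 (by positivity)
    have h5 := pow_le_pow_left₀ h3 h2 2
    have h6 : 0 ≤ (1 + ∑ t, |((((Jet.lstAll (2 * n + 1) e C K m).get s + g i) t : ℤ) : ℝ)|) ^
        (1 / (8 * n : ℝ)) := Real.rpow_nonneg h3 _
    have h7 : Ch * (1 + ∑ t, |((((Jet.lstAll (2 * n + 1) e C K m).get s + g i) t : ℤ) : ℝ)|) ^ 2 *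
        ((1 + ∑ t, |((((Jet.lstAll (2 * n + 1) e C K m).get s + g i) t : ℤ) : ℝ)|) ^
          (1 / (8 * n : ℝ)) + 1 + h0) ≤ H := by
      rw [hH]
      refine mul_le_mul (mul_le_mul_of_nonneg_left h5 hCh) (by linarith) (by linarith)
        (by positivity)
    linarith [h1.trans h7]
  have hH0 : 0 ≤ 1 + H := by
    have h1 : 0 ≤ (cs * (1 + R)) ^ (1 / (8 * n : ℝ)) := Real.rpow_nonneg (by positivity) _
    have h2 : 0 ≤ H := by
      rw [hH]
      refine mul_nonneg (by positivity) (by linarith)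
    linarith
  have hsum1 : ∑ i, ∑ s, (1 + Height.logHeight (fun j => MvPowerSeries.constantCoeff
      (Dd.co x' ((Jet.lstAll (2 * n + 1) e C K m).get s + g i) j))) ≤ N * (Lc * (1 + H)) := by
    rw [hLc]
    exact sum_le_mul _ _ hHb
  have hsum2 : ∑ i, ∑ u ∈ Finset.univ.image
        (fun s : Fin (Jet.lstAll (2 * n + 1) e C K m).length =>
          (Jet.lstAll (2 * n + 1) e C K m).get s),
      (1 + Height.logHeight (fun j => MvPowerSeries.constantCoeff (Dd.co x' (u + g i) j))) ≤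
      N * (((2 * K + 5 : ℕ) : ℝ) * (1 + H)) :=
    sum_image_le _ (2 * K + 5) (Jet.card_translates _ e C K m)
      (fun i u => 1 + Height.logHeight (fun j => MvPowerSeries.constantCoeff
        (Dd.co x' (u + g i) j))) _ hH0 hHb
  -- the degree `D` of the interpolation
  obtain ⟨D, hD1, hD2⟩ := exists_D n N hn
  have hfin1 := hD D
  have hcastD : ((D * (N - D ^ n) : ℕ) : ℝ) = D * ((N : ℝ) - (D : ℝ) ^ n) := by
    have h1 : D ^ n ≤ N := by omega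
    rw [Nat.cast_mul, Nat.cast_sub h1, Nat.cast_pow]
  have hD1r : 2 * (D : ℝ) ^ n ≤ N := by exact_mod_cast hD1
  have hD2r : (N : ℝ) < 2 * ((D : ℝ) + 1) ^ n := by exact_mod_cast hD2
  have hleft : Real.log p * D * ((N : ℝ) / 2) ≤ Real.log p * ((D * (N - D ^ n) : ℕ) : ℝ) := by
    rw [hcastD, mul_assoc]
    refine mul_le_mul_of_nonneg_left ?_ hlp.le
    refine mul_le_mul_of_nonneg_left ?_ (Nat.cast_nonneg _)
    linarith
  -- all terms
  obtain ⟨V, hV⟩ : ∃ V : ℝ, V = (cs * (1 + R)) ^ (1 / (8 * n : ℝ)) := ⟨_, rfl⟩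
  have hS0 : 0 ≤ cs * (1 + R) := by positivity
  have hV0 : 0 ≤ V := by
    rw [hV]
    exact Real.rpow_nonneg hS0 _
  have hVw : V ^ (8 * n) ≤ 2 * cs * R := by
    have h1 : V ^ (8 * n) = cs * (1 + R) := by
      rw [hV, ← Real.rpow_natCast, ← Real.rpow_mul hS0]
      have h2 : 1 / (8 * n : ℝ) * ((8 * n : ℕ) : ℝ) = 1 := by
        push_cast
        field_simp
      rw [h2, Real.rpow_one]
    rw [h1]
    nlinarith
  have hall := hnum N Lc K ((4 * n + 2) * m) xr R hx1 hR hNpos hN2 hLc1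
    (by rw [hxr]; push_cast; exact le_rfl) h0 h0nn D0 hD00 hD01 hh0 H hH.le
  have hlast := hfin ((2 : ℝ) ^ j) ht0j N D V hV0 (by rw [← hRt]; exact hVw)
    (by rw [← hxt, ← hRt]; exact hN1) hD2r
  rw [← hxt, ← hRt, hV] at hlast
  have hT1 := mul_le_mul_of_nonneg_left hsum1 hCa.le
  have hT2 : Ca * (((4 * n + 2) * m : ℕ) : ℝ) * ∑ i, ∑ u ∈ Finset.univ.image
        (fun s : Fin (Jet.lstAll (2 * n + 1) e C K m).length =>
          (Jet.lstAll (2 * n + 1) e C K m).get s),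
      (1 + Height.logHeight (fun j => MvPowerSeries.constantCoeff (Dd.co x' (u + g i) j))) ≤
      Ca * (((4 * n + 2) * m : ℕ) : ℝ) * (N * ((2 * K + 5) * (1 + H))) := by
    refine mul_le_mul_of_nonneg_left ?_ (by positivity)
    have h1 := hsum2
    push_cast at h1
    exact h1
  rw [hLc] at hall hT1
  linarith

end Pool.Agent.H74.HN
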