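import Mathlib

/-!
# The final inequality in dimension `2n`

`m = t ^ p0`, `R = t ^ q0`, the number of sections is at least `c m ^ (2n - k) R ^ (2(n - k))`, the
interpolation degree `D` is of the order of the `n`-th root of `N`, and the height of a row is at most
`C m R ^ 2` up to powers of the logarithm.
-/

namespace Pool.Agent.H74.HN

open Filter Topology

/-- a power of a logarithm is smaller than a linear function -/
theorem log_pow_lt (A B : ℝ) (s : ℕ) (hB : 0 < B) :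
    ∀ᶠ t : ℝ in atTop, A * (1 + Real.log t) ^ s < B * t := by
  have h1 : (fun x : ℝ => Real.log x ^ s) =o[atTop] (id : ℝ → ℝ) :=
    Real.isLittleO_pow_log_id_atTop
  have h2 := h1.bound (c := B / (2 * (2 ^ s * (|A| + 1)))) (by positivity)
  filter_upwards [h2, eventually_ge_atTop (Real.exp 1)] with t hm he
  have hm1 : 1 ≤ t := by
    have h := Real.add_one_le_exp (1 : ℝ)
    linarith
  have hm0 : 0 < t := by linarith
  have hl : 1 ≤ Real.log t := by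
    rw [Real.le_log_iff_exp_le hm0]
    exact he
  have h3 : Real.log t ^ s ≤ B / (2 * (2 ^ s * (|A| + 1))) * t := by
    have h4 : ‖Real.log t ^ s‖ = Real.log t ^ s := by
      rw [Real.norm_eq_abs, abs_of_nonneg (by positivity)]
    rw [h4, id, Real.norm_eq_abs, abs_of_pos hm0] at hm
    exact hm
  have h5 : (1 + Real.log t) ^ s ≤ 2 ^ s * Real.log t ^ s := by
    rw [← mul_pow]
    exact pow_le_pow_left₀ (by linarith) (by linarith) s
  have h7 : A * (1 + Real.log t) ^ s ≤ (|A| + 1) * (2 ^ s * Real.log t ^ s) := by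
    have h8 : A * (1 + Real.log t) ^ s ≤ (|A| + 1) * (1 + Real.log t) ^ s :=
      mul_le_mul_of_nonneg_right (by linarith [le_abs_self A]) (by positivity)
    exact h8.trans (mul_le_mul_of_nonneg_left h5 (by positivity))
  have h9 : (|A| + 1) * (2 ^ s * Real.log t ^ s) ≤ B / 2 * t := by
    calc (|A| + 1) * (2 ^ s * Real.log t ^ s)
        ≤ (|A| + 1) * (2 ^ s * (B / (2 * (2 ^ s * (|A| + 1))) * t)) := by gcongr
      _ = B / 2 * t := by field_simp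
  have h11 : B / 2 * t < B * t := by nlinarith
  linarith

/-- **The final inequality**, dimension `2n`, Kodaira dimension `k < n`. -/
theorem num (n k p0 q0 s : ℕ) (hk : k < n) (hpq : 2 * k * q0 < (n - k) * p0)
    (c2 c4 P : ℝ) (hc2 : 0 < c2) (hc4 : 0 ≤ c4) (hP : 0 < P) :
    ∃ t0 : ℝ, 1 ≤ t0 ∧ ∀ t : ℝ, t0 ≤ t → ∀ N D : ℕ,
      c2 * (t ^ p0) ^ (2 * n - k) * (t ^ q0) ^ (2 * (n - k)) ≤ N →
      (N : ℝ) < 2 * ((D : ℝ) + 1) ^ n →
      (N : ℝ) * (c4 * t ^ p0 * (1 + t ^ q0) ^ 2 * (1 + Real.log (1 + t ^ p0 * t ^ q0)) ^ s) <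
        P * D * ((N : ℝ) / 2) := by
  obtain ⟨G, hG⟩ : ∃ G : ℝ, G = 2 * (16 * c4 / P) ^ n * (2 + p0 + q0 : ℝ) ^ (s * n) := ⟨_, rfl⟩
  have hG0 : 0 ≤ G := by rw [hG]; positivity
  obtain ⟨t1, ht1⟩ := eventually_atTop.1 (log_pow_lt G c2 (s * n) hc2)
  refine ⟨max (max t1 1) (2 / c2), le_trans (le_max_right _ _) (le_max_left _ _),
    fun t ht N D hN hD => ?_⟩
  have htt1 : t1 ≤ t := ((le_max_left _ _).trans (le_max_left _ _)).trans ht
  have ht1' : 1 ≤ t := ((le_max_right _ _).trans (le_max_left _ _)).trans ht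
  have ht2 : 2 / c2 ≤ t := (le_max_right _ _).trans ht
  have ht0 : 0 < t := by linarith
  have hlog := ht1 t htt1
  have hl0 : 0 ≤ Real.log t := Real.log_nonneg ht1'
  obtain ⟨j, hj⟩ : ∃ j, n = k + (j + 1) := ⟨n - k - 1, by omega⟩
  obtain ⟨d, hd⟩ : ∃ d, p0 * (2 * n - k) + q0 * (2 * (n - k)) = n * (p0 + 2 * q0) + (d + 1) := by
    refine ⟨(n - k) * p0 - 2 * k * q0 - 1, ?_⟩
    have e1 : n - k = j + 1 := by omega
    have e2 : 2 * n - k = n + (j + 1) := by omega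
    rw [e1] at hpq ⊢
    rw [e2]
    obtain ⟨z, hz⟩ : ∃ z, (j + 1) * p0 = 2 * k * q0 + (z + 1) := by
      exact ⟨(j + 1) * p0 - 2 * k * q0 - 1, by omega⟩
    rw [hz]
    have e3 : 2 * k * q0 + (z + 1) - 2 * k * q0 - 1 = z := by omega
    rw [e3]
    have e4 : p0 * (n + (j + 1)) = p0 * n + (2 * k * q0 + (z + 1)) := by
      rw [mul_add, mul_comm p0 (j + 1), hz]
    rw [e4, hj]
    ring
  have hpow : (t ^ p0) ^ (2 * n - k) * (t ^ q0) ^ (2 * (n - k)) =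
      (t ^ (p0 + 2 * q0)) ^ n * t ^ (d + 1) := by
    rw [← pow_mul, ← pow_mul, ← pow_add, hd, pow_add, mul_comm n, pow_mul]
  have hN' : c2 * ((t ^ (p0 + 2 * q0)) ^ n * t ^ (d + 1)) ≤ N := by
    rw [← hpow, ← mul_assoc]
    exact hN
  have hS1 : (1 : ℝ) ≤ (t ^ (p0 + 2 * q0)) ^ n := one_le_pow₀ (one_le_pow₀ ht1')
  have hS0 : (0 : ℝ) < (t ^ (p0 + 2 * q0)) ^ n := by linarith
  have htd : t ≤ t ^ (d + 1) := le_self_pow₀ ht1' (by omega)
  have hNc : c2 * t * (t ^ (p0 + 2 * q0)) ^ n ≤ N := by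
    calc c2 * t * (t ^ (p0 + 2 * q0)) ^ n = c2 * ((t ^ (p0 + 2 * q0)) ^ n * t) := by ring
      _ ≤ c2 * ((t ^ (p0 + 2 * q0)) ^ n * t ^ (d + 1)) := by gcongr
      _ ≤ N := hN'
  have hct : 2 ≤ c2 * t := by
    rw [div_le_iff₀ hc2] at ht2
    linarith
  have hN2 : 2 ≤ (N : ℝ) := by
    calc (2 : ℝ) ≤ c2 * t := hct
      _ ≤ c2 * t * (t ^ (p0 + 2 * q0)) ^ n := le_mul_of_one_le_right (by positivity) hS1
      _ ≤ N := hNc
  have hD1 : (1 : ℝ) ≤ D := by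
    rcases Nat.eq_zero_or_pos D with h0 | h0
    · rw [h0, Nat.cast_zero, zero_add, one_pow] at hD
      linarith
    · exact_mod_cast h0
  have hR1 : (1 : ℝ) ≤ t ^ q0 := one_le_pow₀ ht1'
  have hx1 : (1 : ℝ) ≤ t ^ p0 := one_le_pow₀ ht1'
  -- the logarithm
  have hl1 : 1 + Real.log (1 + t ^ p0 * t ^ q0) ≤ (2 + p0 + q0) * (1 + Real.log t) := by
    have h1 : 1 + t ^ p0 * t ^ q0 ≤ 2 * t ^ (p0 + q0) := by
      rw [← pow_add]
      have : (1 : ℝ) ≤ t ^ (p0 + q0) := one_le_pow₀ ht1'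
      linarith
    have h2 := Real.log_le_log (by positivity) h1
    rw [Real.log_mul (by norm_num) (by positivity), Real.log_pow] at h2
    have h3 : Real.log 2 ≤ 1 := by
      have := Real.log_two_lt_d9
      linarith
    push_cast at h2
    have h4 : 0 ≤ (p0 : ℝ) := Nat.cast_nonneg _
    have h5 : 0 ≤ (q0 : ℝ) := Nat.cast_nonneg _
    nlinarith
  have hl2 : 0 ≤ 1 + Real.log (1 + t ^ p0 * t ^ q0) := by
    have : 0 ≤ Real.log (1 + t ^ p0 * t ^ q0) := Real.log_nonneg (by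
      have : 0 ≤ t ^ p0 * t ^ q0 := by positivity
      linarith)
    linarith
  obtain ⟨l, hl⟩ : ∃ l, l = 1 + Real.log (1 + t ^ p0 * t ^ q0) := ⟨_, rfl⟩
  rw [← hl] at hl1 hl2 ⊢
  have hmain : c4 * t ^ p0 * (1 + t ^ q0) ^ 2 * l ^ s < P * D / 2 := by
    by_contra hcon
    push Not at hcon
    have h1 : (1 + t ^ q0) ^ 2 ≤ 4 * (t ^ q0) ^ 2 := by nlinarith
    have h2 : P * D / 2 ≤ 4 * c4 * (t ^ (p0 + 2 * q0) * l ^ s) := by
      calc P * D / 2 ≤ c4 * t ^ p0 * (1 + t ^ q0) ^ 2 * l ^ s := hcon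
        _ ≤ c4 * t ^ p0 * (4 * (t ^ q0) ^ 2) * l ^ s := by gcongr
        _ = 4 * c4 * (t ^ (p0 + 2 * q0) * l ^ s) := by
          rw [pow_add, mul_comm 2 q0, pow_mul]
          ring
    have h3 : 2 * (D : ℝ) ≤ 16 * c4 / P * (t ^ (p0 + 2 * q0) * l ^ s) := by
      rw [div_mul_eq_mul_div, le_div_iff₀ hP]
      linarith
    have h4 : (N : ℝ) < 2 * (16 * c4 / P * (t ^ (p0 + 2 * q0) * l ^ s)) ^ n := by
      have h5 : ((D : ℝ) + 1) ^ n ≤ (16 * c4 / P * (t ^ (p0 + 2 * q0) * l ^ s)) ^ n :=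
        pow_le_pow_left₀ (by positivity) (by linarith) n
      linarith
    have h6 : c2 * t * (t ^ (p0 + 2 * q0)) ^ n <
        2 * (16 * c4 / P) ^ n * (l ^ s) ^ n * (t ^ (p0 + 2 * q0)) ^ n := by
      calc c2 * t * (t ^ (p0 + 2 * q0)) ^ n ≤ N := hNc
        _ < 2 * (16 * c4 / P * (t ^ (p0 + 2 * q0) * l ^ s)) ^ n := h4
        _ = 2 * (16 * c4 / P) ^ n * (l ^ s) ^ n * (t ^ (p0 + 2 * q0)) ^ n := by
          rw [mul_pow, mul_pow]
          ring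
    have h7 : c2 * t < 2 * (16 * c4 / P) ^ n * (l ^ s) ^ n := lt_of_mul_lt_mul_right h6 hS0.le
    have h8 : (l ^ s) ^ n ≤ (2 + p0 + q0 : ℝ) ^ (s * n) * (1 + Real.log t) ^ (s * n) := by
      rw [← pow_mul, ← mul_pow]
      exact pow_le_pow_left₀ hl2 hl1 _
    have h9 : 2 * (16 * c4 / P) ^ n * (l ^ s) ^ n ≤ G * (1 + Real.log t) ^ (s * n) := by
      rw [hG]
      calc 2 * (16 * c4 / P) ^ n * (l ^ s) ^ n ≤ 2 * (16 * c4 / P) ^ n *
          ((2 + p0 + q0 : ℝ) ^ (s * n) * (1 + Real.log t) ^ (s * n)) := by gcongr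
        _ = _ := by ring
    linarith
  have hN0 : (0 : ℝ) < N := by linarith
  calc (N : ℝ) * (c4 * t ^ p0 * (1 + t ^ q0) ^ 2 * l ^ s) < N * (P * D / 2) :=
        mul_lt_mul_of_pos_left hmain hN0
    _ = P * D * ((N : ℝ) / 2) := by ring

/-- **The final inequality** with a further factor `V`, `V ^ w ≤ c5 R`. -/
theorem num_eps (n k p0 q0 s w : ℕ) (hk : k < n) (hpq : 2 * k * q0 < (n - k) * p0)
    (hw : n * q0 < w * ((n - k) * p0 - 2 * k * q0))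
    (c2 c4 c5 P : ℝ) (hc2 : 0 < c2) (hc4 : 0 ≤ c4) (hc5 : 0 ≤ c5) (hP : 0 < P) :
    ∃ t0 : ℝ, 1 ≤ t0 ∧ ∀ t : ℝ, t0 ≤ t → ∀ (N D : ℕ) (V : ℝ), 0 ≤ V → V ^ w ≤ c5 * t ^ q0 →
      c2 * (t ^ p0) ^ (2 * n - k) * (t ^ q0) ^ (2 * (n - k)) ≤ N →
      (N : ℝ) < 2 * ((D : ℝ) + 1) ^ n →
      (N : ℝ) * (c4 * t ^ p0 * (1 + t ^ q0) ^ 2 * V *
        (1 + Real.log (1 + t ^ p0 * t ^ q0)) ^ s) < P * D * ((N : ℝ) / 2) := by
  obtain ⟨G, hG⟩ : ∃ G : ℝ, G = (2 * (16 * c4 / P) ^ n) ^ w * c5 ^ n *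
      (2 + p0 + q0 : ℝ) ^ (s * n * w) := ⟨_, rfl⟩
  have hG0 : 0 ≤ G := by rw [hG]; positivity
  obtain ⟨t1, ht1⟩ := eventually_atTop.1 (log_pow_lt G (c2 ^ w) (s * n * w) (by positivity))
  refine ⟨max (max t1 1) (2 / c2), le_trans (le_max_right _ _) (le_max_left _ _),
    fun t ht N D V hV0 hV hN hD => ?_⟩
  have htt1 : t1 ≤ t := ((le_max_left _ _).trans (le_max_left _ _)).trans ht
  have ht1' : 1 ≤ t := ((le_max_right _ _).trans (le_max_left _ _)).trans ht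
  have ht2 : 2 / c2 ≤ t := (le_max_right _ _).trans ht
  have ht0 : 0 < t := by linarith
  have hlog := ht1 t htt1
  have hl0 : 0 ≤ Real.log t := Real.log_nonneg ht1'
  obtain ⟨j, hj⟩ : ∃ j, n = k + (j + 1) := ⟨n - k - 1, by omega⟩
  obtain ⟨d, hd, hwd⟩ : ∃ d, p0 * (2 * n - k) + q0 * (2 * (n - k)) = n * (p0 + 2 * q0) + (d + 1) ∧
      n * q0 < w * (d + 1) := by
    refine ⟨(n - k) * p0 - 2 * k * q0 - 1, ?_, ?_⟩
    · have e1 : n - k = j + 1 := by omega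
      have e2 : 2 * n - k = n + (j + 1) := by omega
      rw [e1] at hpq ⊢
      rw [e2]
      obtain ⟨z, hz⟩ : ∃ z, (j + 1) * p0 = 2 * k * q0 + (z + 1) := by
        exact ⟨(j + 1) * p0 - 2 * k * q0 - 1, by omega⟩
      rw [hz]
      have e3 : 2 * k * q0 + (z + 1) - 2 * k * q0 - 1 = z := by omega
      rw [e3]
      have e4 : p0 * (n + (j + 1)) = p0 * n + (2 * k * q0 + (z + 1)) := by
        rw [mul_add, mul_comm p0 (j + 1), hz]
      rw [e4, hj]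
      ring
    · have e5 : (n - k) * p0 - 2 * k * q0 - 1 + 1 = (n - k) * p0 - 2 * k * q0 := by omega
      rw [e5]
      exact hw
  have hpow : (t ^ p0) ^ (2 * n - k) * (t ^ q0) ^ (2 * (n - k)) =
      (t ^ (p0 + 2 * q0)) ^ n * t ^ (d + 1) := by
    rw [← pow_mul, ← pow_mul, ← pow_add, hd, pow_add, mul_comm n, pow_mul]
  have hN' : c2 * ((t ^ (p0 + 2 * q0)) ^ n * t ^ (d + 1)) ≤ N := by
    rw [← hpow, ← mul_assoc]
    exact hN
  have hS1 : (1 : ℝ) ≤ (t ^ (p0 + 2 * q0)) ^ n := one_le_pow₀ (one_le_pow₀ ht1')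
  have hS0 : (0 : ℝ) < (t ^ (p0 + 2 * q0)) ^ n := by linarith
  have htd : t ≤ t ^ (d + 1) := le_self_pow₀ ht1' (by omega)
  have hct : 2 ≤ c2 * t := by
    rw [div_le_iff₀ hc2] at ht2
    linarith
  have hN2 : 2 ≤ (N : ℝ) := by
    calc (2 : ℝ) ≤ c2 * t := hct
      _ ≤ c2 * t * (t ^ (p0 + 2 * q0)) ^ n := le_mul_of_one_le_right (by positivity) hS1
      _ = c2 * ((t ^ (p0 + 2 * q0)) ^ n * t) := by ring
      _ ≤ c2 * ((t ^ (p0 + 2 * q0)) ^ n * t ^ (d + 1)) := by gcongr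
      _ ≤ N := hN'
  have hD1 : (1 : ℝ) ≤ D := by
    rcases Nat.eq_zero_or_pos D with h0 | h0
    · rw [h0, Nat.cast_zero, zero_add, one_pow] at hD
      linarith
    · exact_mod_cast h0
  have hR1 : (1 : ℝ) ≤ t ^ q0 := one_le_pow₀ ht1'
  have hx1 : (1 : ℝ) ≤ t ^ p0 := one_le_pow₀ ht1'
  have hl1 : 1 + Real.log (1 + t ^ p0 * t ^ q0) ≤ (2 + p0 + q0) * (1 + Real.log t) := by
    have h1 : 1 + t ^ p0 * t ^ q0 ≤ 2 * t ^ (p0 + q0) := by
      rw [← pow_add]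
      have : (1 : ℝ) ≤ t ^ (p0 + q0) := one_le_pow₀ ht1'
      linarith
    have h2 := Real.log_le_log (by positivity) h1
    rw [Real.log_mul (by norm_num) (by positivity), Real.log_pow] at h2
    have h3 : Real.log 2 ≤ 1 := by
      have := Real.log_two_lt_d9
      linarith
    push_cast at h2
    have h4 : 0 ≤ (p0 : ℝ) := Nat.cast_nonneg _
    have h5 : 0 ≤ (q0 : ℝ) := Nat.cast_nonneg _
    nlinarith
  have hl2 : 0 ≤ 1 + Real.log (1 + t ^ p0 * t ^ q0) := by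
    have : 0 ≤ Real.log (1 + t ^ p0 * t ^ q0) := Real.log_nonneg (by
      have : 0 ≤ t ^ p0 * t ^ q0 := by positivity
      linarith)
    linarith
  obtain ⟨l, hl⟩ : ∃ l, l = 1 + Real.log (1 + t ^ p0 * t ^ q0) := ⟨_, rfl⟩
  rw [← hl] at hl1 hl2 ⊢
  have hmain : c4 * t ^ p0 * (1 + t ^ q0) ^ 2 * V * l ^ s < P * D / 2 := by
    by_contra hcon
    push Not at hcon
    have h1 : (1 + t ^ q0) ^ 2 ≤ 4 * (t ^ q0) ^ 2 := by nlinarith
    have h2 : P * D / 2 ≤ 4 * c4 * (t ^ (p0 + 2 * q0) * (V * l ^ s)) := by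
      calc P * D / 2 ≤ c4 * t ^ p0 * (1 + t ^ q0) ^ 2 * V * l ^ s := hcon
        _ ≤ c4 * t ^ p0 * (4 * (t ^ q0) ^ 2) * V * l ^ s := by gcongr
        _ = 4 * c4 * (t ^ (p0 + 2 * q0) * (V * l ^ s)) := by
          rw [pow_add, mul_comm 2 q0, pow_mul]
          ring
    have h3 : 2 * (D : ℝ) ≤ 16 * c4 / P * (t ^ (p0 + 2 * q0) * (V * l ^ s)) := by
      rw [div_mul_eq_mul_div, le_div_iff₀ hP]
      linarith
    have h4 : (N : ℝ) < 2 * (16 * c4 / P * (t ^ (p0 + 2 * q0) * (V * l ^ s))) ^ n := by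
      have h5 : ((D : ℝ) + 1) ^ n ≤ (16 * c4 / P * (t ^ (p0 + 2 * q0) * (V * l ^ s))) ^ n :=
        pow_le_pow_left₀ (by positivity) (by linarith) n
      linarith
    have h6 : c2 * t ^ (d + 1) * (t ^ (p0 + 2 * q0)) ^ n <
        2 * (16 * c4 / P) ^ n * (V ^ n * (l ^ s) ^ n) * (t ^ (p0 + 2 * q0)) ^ n := by
      calc c2 * t ^ (d + 1) * (t ^ (p0 + 2 * q0)) ^ n =
          c2 * ((t ^ (p0 + 2 * q0)) ^ n * t ^ (d + 1)) := by ring
        _ ≤ N := hN'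
        _ < 2 * (16 * c4 / P * (t ^ (p0 + 2 * q0) * (V * l ^ s))) ^ n := h4
        _ = 2 * (16 * c4 / P) ^ n * (V ^ n * (l ^ s) ^ n) * (t ^ (p0 + 2 * q0)) ^ n := by
          rw [mul_pow, mul_pow, mul_pow]
          ring
    have h7 : c2 * t ^ (d + 1) ≤ 2 * (16 * c4 / P) ^ n * (V ^ n * (l ^ s) ^ n) :=
      (lt_of_mul_lt_mul_right h6 hS0.le).le
    have h10 : (c2 * t ^ (d + 1)) ^ w ≤ (2 * (16 * c4 / P) ^ n * (V ^ n * (l ^ s) ^ n)) ^ w :=
      pow_le_pow_left₀ (by positivity) h7 w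
    have h11 : (2 * (16 * c4 / P) ^ n * (V ^ n * (l ^ s) ^ n)) ^ w =
        (2 * (16 * c4 / P) ^ n) ^ w * (V ^ w) ^ n * l ^ (s * n * w) := by
      have e1 : (V ^ n * (l ^ s) ^ n) ^ w = (V ^ w) ^ n * l ^ (s * n * w) := by
        rw [mul_pow, ← pow_mul V, ← pow_mul V, mul_comm n w, ← pow_mul l, ← pow_mul l]
      rw [mul_pow (2 * (16 * c4 / P) ^ n), e1]
      ring
    have h12 : (V ^ w) ^ n ≤ (c5 * t ^ q0) ^ n := pow_le_pow_left₀ (by positivity) hV n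
    have h8 : l ^ (s * n * w) ≤
        (2 + p0 + q0 : ℝ) ^ (s * n * w) * (1 + Real.log t) ^ (s * n * w) := by
      rw [← mul_pow]
      exact pow_le_pow_left₀ hl2 hl1 _
    have h9 : (2 * (16 * c4 / P) ^ n) ^ w * (V ^ w) ^ n * l ^ (s * n * w) ≤
        G * (1 + Real.log t) ^ (s * n * w) * t ^ (n * q0) := by
      have hg : 0 ≤ (2 * (16 * c4 / P) ^ n) ^ w := by positivity
      calc (2 * (16 * c4 / P) ^ n) ^ w * (V ^ w) ^ n * l ^ (s * n * w) ≤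
          (2 * (16 * c4 / P) ^ n) ^ w * (c5 * t ^ q0) ^ n *
          ((2 + p0 + q0 : ℝ) ^ (s * n * w) * (1 + Real.log t) ^ (s * n * w)) :=
            mul_le_mul (mul_le_mul_of_nonneg_left h12 hg) h8 (by positivity)
              (mul_nonneg hg (by positivity))
        _ = _ := by
          rw [hG, mul_pow c5 (t ^ q0) n, ← pow_mul t, mul_comm q0 n]
          ring
    have h13 : c2 ^ w * t * t ^ (n * q0) ≤ (c2 * t ^ (d + 1)) ^ w := by
      rw [mul_pow, ← pow_mul, mul_assoc, ← pow_succ', mul_comm (d + 1) w]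
      refine mul_le_mul_of_nonneg_left ?_ (by positivity)
      exact pow_le_pow_right₀ ht1' hwd
    have h14 : c2 ^ w * t * t ^ (n * q0) ≤
        G * (1 + Real.log t) ^ (s * n * w) * t ^ (n * q0) := by
      calc c2 ^ w * t * t ^ (n * q0) ≤ (c2 * t ^ (d + 1)) ^ w := h13
        _ ≤ (2 * (16 * c4 / P) ^ n) ^ w * (V ^ w) ^ n * l ^ (s * n * w) := by
          rw [← h11]
          exact h10
        _ ≤ _ := h9
    have h15 : c2 ^ w * t ≤ G * (1 + Real.log t) ^ (s * n * w) :=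
      le_of_mul_le_mul_right h14 (by positivity)
    linarith
  have hN0 : (0 : ℝ) < N := by linarith
  calc (N : ℝ) * (c4 * t ^ p0 * (1 + t ^ q0) ^ 2 * V * l ^ s) < N * (P * D / 2) :=
        mul_lt_mul_of_pos_left hmain hN0
    _ = P * D * ((N : ℝ) / 2) := by ring

/-- **The zero estimate is applicable**: `C m ^ (2(n - k)) R ^ (2(n - k)) < R ^ r`. -/
theorem card_lt (n k p0 q0 r : ℕ) (h : 2 * (n - k) * (p0 + q0) < r * q0) (C : ℝ) :
    ∃ t0 : ℝ, 1 ≤ t0 ∧ ∀ t : ℝ, t0 ≤ t →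
      C * (t ^ p0) ^ (2 * (n - k)) * (t ^ q0) ^ (2 * (n - k)) < (t ^ q0) ^ r := by
  refine ⟨|C| + 1, by linarith [abs_nonneg C], fun t ht => ?_⟩
  have hC := abs_nonneg C
  have ht1 : 1 ≤ t := by linarith
  have ht0 : 0 < t := by linarith
  obtain ⟨d, hd⟩ : ∃ d, r * q0 = 2 * (n - k) * (p0 + q0) + (d + 1) :=
    ⟨r * q0 - 2 * (n - k) * (p0 + q0) - 1, by omega⟩
  have h1 : (t ^ p0) ^ (2 * (n - k)) * (t ^ q0) ^ (2 * (n - k)) =
      t ^ (2 * (n - k) * (p0 + q0)) := by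
    rw [← pow_mul, ← pow_mul, ← pow_add]
    congr 1
    ring
  have h2 : (t ^ q0) ^ r = t ^ (2 * (n - k) * (p0 + q0)) * t ^ (d + 1) := by
    rw [← pow_mul, mul_comm q0 r, hd, pow_add]
  rw [mul_assoc, h1, h2, mul_comm C]
  refine mul_lt_mul_of_pos_left ?_ (by positivity)
  calc C ≤ |C| := le_abs_self C
    _ < t := by linarith
    _ ≤ t ^ (d + 1) := le_self_pow₀ ht1 (by omega)

/-- the exponents used for `r ≥ 2n + 2k + 1`; the last inequality allows `R ^ (1 / (8 n))`. -/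
theorem exponents (n k r : ℕ) (hk : k < n) (hr : 2 * n + 2 * k + 1 ≤ r) :
    2 * k * (4 * (n - k)) < (n - k) * (8 * k + 1) ∧
      2 * (n - k) * ((8 * k + 1) + 4 * (n - k)) < r * (4 * (n - k)) ∧
      n * (4 * (n - k)) < 8 * n * ((n - k) * (8 * k + 1) - 2 * k * (4 * (n - k))) := by
  obtain ⟨j, hj⟩ : ∃ j, n = k + (j + 1) := ⟨n - k - 1, by omega⟩
  have e1 : n - k = j + 1 := by omega
  rw [e1]
  refine ⟨?_, ?_, ?_⟩
  · ring_nf
    omega
  rotate_left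
  · have e2 : (j + 1) * (8 * k + 1) - 2 * k * (4 * (j + 1)) = j + 1 := by
      have : (j + 1) * (8 * k + 1) = 2 * k * (4 * (j + 1)) + (j + 1) := by ring
      omega
    rw [e2]
    have : 0 < n * (j + 1) := Nat.mul_pos (by omega) (by omega)
    nlinarith
  · have h1 : (2 * n + 2 * k + 1) * (4 * (j + 1)) ≤ r * (4 * (j + 1)) :=
      Nat.mul_le_mul_right _ hr
    refine lt_of_lt_of_le ?_ h1
    subst hj
    ring_nf
    omega

end Pool.Agent.H74.HN
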