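import Pool.Agent.H13.HN.Iitaka
import Pool.Agent.H13.HN.Disc
import Pool.Agent.H83.HN.Para
import Pool.Agent.H73.HK.PT

/-!
# Very general points
-/

namespace Pool.Agent.H74.HN

open scoped BigOperators
open Pool.Agent.H83.HN Pool.Agent.H13.HN

/-- countably many closed subsets do not cover -/
theorem very_general {n : ℕ} {Lam : Type} [AddCommGroup Lam] {q : Lam → Lam → ℤ}
    (M : Manifold n Lam q) {ι : Type*} [Countable ι] (B : ι → Set M.P)
    (hB : ∀ i, IsClosed (B i) ∧ B i ≠ Set.univ) : ∃ x, ∀ i, x ∉ B i := by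
  classical
  rcases isEmpty_or_nonempty ι with h | h
  · obtain ⟨x, -⟩ := M.baire (fun _ => ∅) fun _ => ⟨isClosed_empty, Set.empty_ne_univ⟩
    exact ⟨x, fun i => (h.false i).elim⟩
  · obtain ⟨f, hf⟩ := exists_surjective_nat ι
    obtain ⟨x, hx⟩ := M.baire (fun i => B (f i)) fun i => hB (f i)
    refine ⟨x, fun i => ?_⟩
    obtain ⟨j, rfl⟩ := hf i
    exact hx j

/-- there is a point in the disc, so the first coordinate does not vanish identically -/
theorem Disc.nonempty {n r kap : ℕ} {Lam : Type} [AddCommGroup Lam] {q : Lam → Lam → ℤ}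
    {NS Ample : Set Lam} {P : Type} {SecA : Submodule ℂ (P → ℂ)} {act : (Fin r → ℤ) → P → P}
    {pull : (Fin r → ℤ) → Lam → Lam} {A : Lam} {Good : Set P}
    {JA : P → (P → ℂ) → MvPowerSeries (Fin kap) ℂ} {p : ℕ} [Fact p.Prime]
    (Dd : Disc q NS Ample SecA n act pull A Good JA p) : Nonempty Dd.D := by
  obtain ⟨C, hC⟩ := Dd.hensel
  obtain ⟨y, hy, -, hy0⟩ := Pool.Agent.H73.HK.grid_point Dd.p0_pos Dd.G0 Dd.G0_ne le_rfl Dd.y0
  obtain ⟨x, -⟩ := hC y hy hy0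
  exact ⟨x⟩

/-- **The point.** `x` is in `Reg`, its orbits under all elements `g ≠ 0` are dense in the fibre, the
rank of the restriction to its fibre is the generic one, and no translate lies on the reference
hyperplane `a0 = 0`. -/
theorem exists_point {n : ℕ} {Lam : Type} [AddCommGroup Lam] {q : Lam → Lam → ℤ}
    {M : Manifold n Lam q} {L A : Lam} {r : ℕ} (I : Iitaka M L) (π : Para M L A r)
    (hAC : ∀ g : Fin r → ℤ, g ≠ 0 → ∃ bad : ℕ → Set M.P,
      (∀ i, IsClosed (bad i) ∧ bad i ≠ Set.univ) ∧ ∀ x, (∀ i, x ∉ bad i) →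
        I.Fib x ⊆ closure (Set.range fun k : ℤ => π.rho (k • g) • x))
    (bad : ℕ → Set M.P) (hbad : ∀ i, IsClosed (bad i) ∧ bad i ≠ Set.univ)
    (a0 : M.P → ℂ) (ha0 : a0 ∈ M.Sec A) (hne : ∃ y, a0 y ≠ 0) :
    ∃ x ∈ I.Reg, (∀ g : Fin r → ℤ, g ≠ 0 →
        I.Fib x ⊆ closure (Set.range fun k : ℤ => π.rho (k • g) • x)) ∧
      (∀ i, x ∉ bad i) ∧ ∀ g, a0 (π.rho g • x) ≠ 0 := by
  classical
  obtain ⟨Z, hZ1, hZ2, hZ3⟩ := I.reg_open
  have hAC' : ∀ g : Fin r → ℤ, ∃ bad : ℕ → Set M.P,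
      (∀ i, IsClosed (bad i) ∧ bad i ≠ Set.univ) ∧ (g ≠ 0 → ∀ x, (∀ i, x ∉ bad i) →
        I.Fib x ⊆ closure (Set.range fun k : ℤ => π.rho (k • g) • x)) := by
    intro g
    by_cases hg : g = 0
    · exact ⟨fun _ => Z, fun _ => ⟨hZ1, hZ2⟩, fun h => absurd hg h⟩
    · obtain ⟨bad, h1, h2⟩ := hAC g hg
      exact ⟨bad, h1, fun _ => h2⟩
  choose bd hbd1 hbd2 using hAC'
  obtain ⟨x, hx⟩ := very_general M
    (Sum.elim (fun _ : Unit => Z) (Sum.elim bad (Sum.elim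
      (fun i : (Fin r → ℤ) × ℕ => bd i.1 i.2)
      (fun g : Fin r → ℤ => {y | a0 (π.rho g • y) = 0})))) (by
    rintro (i | i | i | g)
    · exact ⟨hZ1, hZ2⟩
    · exact hbad i
    · exact hbd1 i.1 i.2
    · refine ⟨(M.zero_closed A a0 ha0).preimage (M.aut_cont (π.rho g)), fun h => ?_⟩
      obtain ⟨y, hy⟩ := hne
      have h1 : π.rho (-g) • y ∈ {y | a0 (π.rho g • y) = 0} := by
        change π.rho (-g) • y ∈ (Sum.elim (fun _ : Unit => Z) (Sum.elim bad (Sum.elim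
          (fun i : (Fin r → ℤ) × ℕ => bd i.1 i.2)
          (fun g : Fin r → ℤ => {y | a0 (π.rho g • y) = 0})))) (Sum.inr (Sum.inr (Sum.inr g)))
        rw [h]
        exact Set.mem_univ _
      apply hy
      have h2 : π.rho g • π.rho (-g) • y = y := by
        rw [← mul_smul, ← π.rho_add, add_neg_cancel, π.rho_zero, one_smul]
      have h3 : a0 (π.rho g • π.rho (-g) • y) = 0 := h1
      rwa [h2] at h3)
  refine ⟨x, hZ3 x (hx (Sum.inl ())), fun g hg => ?_, fun i => hx (Sum.inr (Sum.inl i)),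
    fun g h => hx (Sum.inr (Sum.inr (Sum.inr g))) h⟩
  exact hbd2 g hg x fun i => hx (Sum.inr (Sum.inr (Sum.inl (g, i))))

end Pool.Agent.H74.HN
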