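import Pool.Agent.H2.HN.NVJ
import Pool.Agent.H8.HN.MinJ
import Pool.Agent.H61.HN.NLOW
import Pool.Agent.H74.HN.VG
import Pool.Agent.H74.HN.Consts
import Pool.Agent.H74.HN.NUM

/-!
# A non zero determinant of Taylor coefficients at a very general point

For `m = t^(8k+1)`, `R = t^(4(n-k))`, `t = 2^j` large, `k < n` the Iitaka dimension: the section
space of the class `E` (of size `m A + m R^2 L`) restricted to a very general fibre has dimension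
`N`, and a determinant of size `N` of Taylor coefficients of order at most `(4n+2) m` at translates
by elements of size at most `(4n+2) R` is not zero.
-/

namespace Pool.Agent.H74.HN

open scoped BigOperators
open Pool.Agent.H83.HN Pool.Agent.H13.HN

variable {n : ℕ} {Lam : Type} [AddCommGroup Lam] {q : Lam → Lam → ℤ} {M : Manifold n Lam q}
  {L A : Lam} {r : ℕ}

theorem nsmul_nef (M : Manifold n Lam q) (k : ℕ) (z : Lam) (hz : z ∈ M.Nef) : k • z ∈ M.Nef := by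
  induction k with
  | zero => simpa using M.nef_zero
  | succ k ih => rw [succ_nsmul]; exact M.nef_add _ ih _ hz

theorem zsmul_nef (M : Manifold n Lam q) (k : ℤ) (z : Lam) (hk : 0 ≤ k) (hz : z ∈ M.Nef) :
    k • z ∈ M.Nef := by
  obtain ⟨j, rfl⟩ := Int.eq_ofNat_of_zero_le hk
  rw [natCast_zsmul]
  exact nsmul_nef M j z hz

/-- exponential growth -/
theorem linear_le_two_pow (a b : ℕ) : ∃ j0 : ℕ, ∀ j, j0 ≤ j → a * j + b ≤ 2 ^ j := by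
  refine ⟨8 * (a + b) + 8, fun j hj => ?_⟩
  obtain ⟨i, hi⟩ : ∃ i, i = j / 2 := ⟨_, rfl⟩
  have h1 : i + 1 ≤ 2 ^ i := Nat.lt_two_pow_self
  have h2 : 2 ^ i * 2 ^ i ≤ 2 ^ j := by
    rw [← pow_add]
    exact Nat.pow_le_pow_right (by norm_num) (by omega)
  have h3 : (i + 1) * (i + 1) ≤ 2 ^ i * 2 ^ i := Nat.mul_le_mul h1 h1
  have h4 : 4 * (a + b) ≤ i := by omega
  have h5 : j ≤ 2 * (i + 1) := by omega
  have h6 : a * j + b ≤ a * (2 * (i + 1)) + b * (i + 1) := by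
    have := Nat.mul_le_mul_left a h5
    nlinarith
  have h7 : a * (2 * (i + 1)) + b * (i + 1) ≤ (i + 1) * (i + 1) := by nlinarith
  omega

/-- the class `B` dominates all translates of `E + t N0` -/
theorem dominates_N0 (hadd : ∀ x y z, q (x + y) z = q x z + q y z) (hsymm : ∀ x y, q x y = q y x)
    (π : Para M L A r) (hA : A ∈ M.Ample) (hL : L ∈ M.Nef) (hLL : q L L = 0)
    (hLA : 0 ≤ q L A) (N0 : Lam) (n1 : ℕ) (hn1 : n1 • A - N0 ∈ M.Nef) (x y T : ℤ) (T0 : ℕ)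
    (hx : 0 ≤ x) (g : Fin r → ℤ) (hg : ∀ i, |g i| ≤ T) (t : ℕ) (ht : t ≤ T0) :
    ((2 * (x + T0 * n1) + (2 * n + 1 : ℕ)) • A +
        (y + 4 * (x + T0 * n1) * (cb q π.b * T ^ 2) * q L A) • L) -
      M.pull (π.rho g) ((x • A + y • L) + t • N0) - (2 * n + 1) • A ∈ M.Nef := by
  have h1 := dominates hadd hsymm π hA hL hLL hLA (x + T0 * n1) y T
    (add_nonneg hx (by positivity)) g hg
  have h2 : ((T0 - t : ℕ) : ℤ) = (T0 : ℤ) - t := by omega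
  have h3 : ((x + T0 * n1) • A + y • L) = ((x • A + y • L) + t • N0) +
      (((T0 - t : ℕ) : ℤ) * n1) • A + t • (n1 • A - N0) := by
    rw [h2, smul_sub]
    module
  rw [h3, map_add, map_add] at h1
  have h4 : M.pull (π.rho g) ((((T0 - t : ℕ) : ℤ) * n1) • A) ∈ M.Nef :=
    M.pull_nef _ _ (zsmul_nef M _ _ (by positivity) (M.ample_nef hA))
  have h5 : M.pull (π.rho g) (t • (n1 • A - N0)) ∈ M.Nef :=
    M.pull_nef _ _ (nsmul_nef M _ _ hn1)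
  have h6 := M.nef_add _ (M.nef_add _ h1 _ h4) _ h5
  convert h6 using 1
  abel

/-- the numerical condition of the zero estimate -/
theorem size_cond (Cb CB CL a l x R X Y : ℝ) (d k r : ℕ) (hCB : 0 ≤ CB) (hCL : 0 ≤ CL)
    (ha : 0 ≤ a) (hl : 0 ≤ l) (hx : 1 ≤ x) (hR : 1 ≤ R) (hX0 : 0 ≤ X) (hY0 : 0 ≤ Y)
    (hqB : X ^ 2 * a + 2 * X * Y * l ≤ CB * (x ^ 2 * R ^ 2)) (hqL : X * l ≤ CL * x)
    (h : |Cb| * CB ^ d * CL ^ k * x ^ (2 * d) * R ^ (2 * d) < R ^ r) :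
    Cb * (X ^ 2 * a + 2 * X * Y * l) ^ d * (X * l) ^ k < (2 * R + 1) ^ r * x ^ k := by
  have h1 : 0 ≤ X ^ 2 * a + 2 * X * Y * l := by positivity
  have h2 : 0 ≤ X * l := by positivity
  have h3 : (X ^ 2 * a + 2 * X * Y * l) ^ d ≤ (CB * (x ^ 2 * R ^ 2)) ^ d :=
    pow_le_pow_left₀ h1 hqB d
  have h4 : (X * l) ^ k ≤ (CL * x) ^ k := pow_le_pow_left₀ h2 hqL k
  have hxk : 0 < x ^ k := by positivity
  calc Cb * (X ^ 2 * a + 2 * X * Y * l) ^ d * (X * l) ^ k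
      ≤ |Cb| * (X ^ 2 * a + 2 * X * Y * l) ^ d * (X * l) ^ k := by
        refine mul_le_mul_of_nonneg_right ?_ (by positivity)
        exact mul_le_mul_of_nonneg_right (le_abs_self _) (by positivity)
    _ ≤ |Cb| * (CB * (x ^ 2 * R ^ 2)) ^ d * (CL * x) ^ k := by
        refine mul_le_mul ?_ h4 (by positivity) (by positivity)
        exact mul_le_mul_of_nonneg_left h3 (abs_nonneg _)
    _ = (|Cb| * CB ^ d * CL ^ k * x ^ (2 * d) * R ^ (2 * d)) * x ^ k := by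
        rw [mul_pow, mul_pow, mul_pow, pow_mul, pow_mul]
        ring
    _ < R ^ r * x ^ k := mul_lt_mul_of_pos_right h hxk
    _ ≤ (2 * R + 1) ^ r * x ^ k := by
        refine mul_le_mul_of_nonneg_right ?_ hxk.le
        exact pow_le_pow_left₀ (by linarith) (by linarith) r

/-- **The determinant.** -/
theorem start (hadd : ∀ x y z, q (x + y) z = q x z + q y z) (hsymm : ∀ x y, q x y = q y x)
    (I : Iitaka M L) (hk : I.k < n) (hA : A ∈ M.VeryAmple) (hL : L ∈ M.Nef) (hLL : q L L = 0)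
    (hL0 : L ≠ 0) (π : Para M L A r) (hr : 2 * n + 2 * I.k + 1 ≤ r)
    (htriv : ∀ g, π.rho g ∈ I.triv)
    (hAC : ∃ bad : ℕ → Set M.P, (∀ i, IsClosed (bad i) ∧ bad i ≠ Set.univ) ∧
      ∀ x, (∀ i, x ∉ bad i) → ∀ m : Fin r → ℤ, m ≠ 0 →
        I.Fib x ⊆ closure (Set.range fun k : ℤ => π.rho (k • m) • x))
    {kk : ℕ} (a : Fin (kk + 1) → M.P → ℂ) (hspan : Submodule.span ℂ (Set.range a) = M.Sec A)
    (hne : ∃ y, a 0 y ≠ 0) (e : Fin r → ℤ) (he0 : e ≠ 0) :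
    ∃ (C : ℕ) (c2 c3 : ℝ), 0 < c2 ∧ 0 < c3 ∧ ∃ x : M.P, I.s 0 x ≠ 0 ∧
      (∀ g, a 0 (π.rho g • x) ≠ 0) ∧
      ∃ j0 : ℕ, ∀ j, j0 ≤ j → ∀ K m : ℕ, K = 4 * (n - I.k) * j → m = 2 ^ ((8 * I.k + 1) * j) →
        C ≤ m ∧ K + 1 ≤ m ∧ ∃ N : ℕ,
          c2 * (m : ℝ) ^ (2 * n - I.k) * ((2 : ℝ) ^ K) ^ (2 * (n - I.k)) ≤ N ∧
          (N : ℝ) ≤ c3 * ((m : ℝ) ^ (2 * n) * ((2 : ℝ) ^ K) ^ (2 * n)) ∧
          ∃ (g : Fin N → (Fin r → ℤ)) (tau : Fin N → (Fin I.k →₀ ℕ))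
            (J : Fin N → Fin (Jet.lstAll (2 * n + 1) e C K m).length → Fin (kk + 1)),
            (∀ i s, |g i s| ≤ (4 * n + 2) * (2 : ℤ) ^ K) ∧
            (∀ i, (tau i).degree ≤ (4 * n + 2) * m) ∧
            Matrix.det (Matrix.of fun i j => MvPowerSeries.coeff (tau i)
              (∏ s, nc (fun y u => I.J y A u) a
                (π.rho ((Jet.lstAll (2 * n + 1) e C K m).get s + g i) • x) (J j s))) ≠ 0 := by
  classical
  have hAmp := M.va_ample hA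
  have hLA : 0 < q L A := by
    rw [hsymm]
    exact M.ample_nef_q A hAmp L hL hL0
  have hAA : 0 < q A A := M.ample_q A hAmp
  have hco := I.cois (M.nef_NS hL) hLL hk.le
  -- the constant `c`
  obtain ⟨c, hc⟩ : ∃ c : ℤ, c = c0 π e := ⟨_, rfl⟩
  have hc1 : 1 ≤ c := by
    have h1 := π.b_neg e he0
    have h2 : 0 < -2 * q (π.b e) (π.b e) * q L A := by
      have : 0 < -2 * q (π.b e) (π.b e) := by linarith
      exact mul_pos this hLA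
    rw [hc, c0]
    omega
  -- the constant `C`
  obtain ⟨n0, hn0, hamp⟩ := M.ample_dom A hAmp ((-(2 * (2 * n + 1) * c)) • L)
    (M.NS.zsmul_mem (M.nef_NS hL) _)
  obtain ⟨C, hCdef⟩ : ∃ C : ℕ, C = n0 + 2 * (2 * n + 1) := ⟨_, rfl⟩
  have hCw : 2 * n + 1 ≤ C := by omega
  have hC' : (C : ℤ) • A - ((2 * n + 1 : ℕ) : ℤ) • ((2 : ℤ) • A + (2 * c0 π e) • L) ∈ M.Nef := by
    have h1 : (C : ℤ) • A - ((2 * n + 1 : ℕ) : ℤ) • ((2 : ℤ) • A + (2 * c0 π e) • L) =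
        n0 • A + (-(2 * (2 * n + 1) * c)) • L := by
      rw [← hc, hCdef]
      push_cast
      module
    rw [h1]
    exact M.ample_nef hamp
  -- the class `N0`
  obtain ⟨n1, hn1, hamp1⟩ := M.ample_dom A hAmp (-I.N0) (M.NS.neg_mem (M.nef_NS I.N0_mem))
  have hn1' : n1 • A - I.N0 ∈ M.Nef := by
    rw [sub_eq_add_neg]
    exact M.ample_nef hamp1
  -- the real constants
  obtain ⟨ar, har⟩ : ∃ ar : ℝ, ar = (q A A : ℝ) := ⟨_, rfl⟩
  obtain ⟨l, hl⟩ : ∃ l : ℝ, l = (q L A : ℝ) := ⟨_, rfl⟩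
  obtain ⟨cr, hcr⟩ : ∃ cr : ℝ, cr = (c : ℝ) := ⟨_, rfl⟩
  obtain ⟨b, hb⟩ : ∃ b : ℝ, b = (cb q π.b : ℝ) := ⟨_, rfl⟩
  have ha0 : 0 < ar := by rw [har]; exact_mod_cast hAA
  have hl1 : 1 ≤ l := by rw [hl]; exact_mod_cast hLA
  have hcr1 : 1 ≤ cr := by rw [hcr]; exact_mod_cast hc1
  have hb0 : 0 ≤ b := by rw [hb]; exact_mod_cast cb_nonneg π.b
  obtain ⟨a1, ha1⟩ : ∃ a1 : ℝ, a1 = (8 * ((2 * n + 1 : ℕ) : ℝ) + 3) := ⟨_, rfl⟩
  obtain ⟨a2, ha2⟩ : ∃ a2 : ℝ, a2 = (11 * ((2 * n + 1 : ℕ) : ℝ) + 2) * cr := ⟨_, rfl⟩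
  have ha1' : 1 ≤ a1 := by
    have : (0 : ℝ) ≤ ((2 * n + 1 : ℕ) : ℝ) := Nat.cast_nonneg _
    rw [ha1]
    linarith
  have ha2' : 1 ≤ a2 := by
    have : (0 : ℝ) ≤ ((2 * n + 1 : ℕ) : ℝ) := Nat.cast_nonneg _
    rw [ha2]
    nlinarith
  obtain ⟨c2, hc2, m0, hm0, bad, hbad, hlow⟩ := Pool.Agent.H61.HN.nlow I hadd hsymm hA hL hLL hL0
    hk.le (a1 + a2) (by linarith)
  obtain ⟨c3, hc3, hupp⟩ := Pool.Agent.H61.HN.nupp_mR (M := M) hadd hsymm hAmp hL hLL hL0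
    (a1 + a2) (by linarith)
  obtain ⟨Cb, hCb⟩ := Pool.Agent.H2.HN.nonvanish_jet (r := r) I hco hA
  -- the point
  obtain ⟨bd, hbd1, hbd2⟩ := hAC
  have ha0A : a 0 ∈ M.Sec A := by
    rw [← hspan]
    exact Submodule.subset_span (Set.mem_range_self 0)
  obtain ⟨x, hxR, hdense, hxbad, hx0⟩ := exists_point I π
    (fun g hg => ⟨bd, hbd1, fun x hx => hbd2 x hx g hg⟩) bad hbad (a 0) ha0A hne
  refine ⟨C, c2, c3, hc2, hc3, x, I.reg_good x hxR, hx0, ?_⟩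
  -- the constants of `B`
  obtain ⟨b1, hb1⟩ : ∃ b1 : ℝ, b1 = a1 + (4 * n + 1) * n1 := ⟨_, rfl⟩
  obtain ⟨b2, hb2⟩ : ∃ b2 : ℝ, b2 = a2 + 4 * b1 * (b * (4 * n + 1) ^ 2) * l := ⟨_, rfl⟩
  obtain ⟨b3, hb3⟩ : ∃ b3 : ℝ, b3 = 2 * b1 + (2 * n + 1) := ⟨_, rfl⟩
  have hb10 : 0 ≤ b1 := by rw [hb1]; positivity
  have hb20 : 0 ≤ b2 := by rw [hb2]; positivity
  have hb30 : 0 ≤ b3 := by rw [hb3]; positivity
  obtain ⟨CB, hCB⟩ : ∃ CB : ℝ, CB = b3 ^ 2 * ar + 2 * b3 * b2 * 1 * l := ⟨_, rfl⟩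
  have hCB0 : 0 ≤ CB := by rw [hCB]; positivity
  obtain ⟨e1, e2, -⟩ := exponents n I.k r hk hr
  obtain ⟨t0, ht0, hcard⟩ := card_lt n I.k (8 * I.k + 1) (4 * (n - I.k)) r e2
    (|Cb| * CB ^ (n - I.k) * (b3 * l) ^ I.k)
  obtain ⟨j0, hj0⟩ := linear_le_two_pow (4 * (n - I.k)) (C + ⌈m0⌉₊ + ⌈t0⌉₊ + 1)
  refine ⟨j0, fun j hj K m hK hm => ?_⟩
  have h2j : 2 ^ j ≤ m := by
    rw [hm]
    exact Nat.pow_le_pow_right (by norm_num) (by nlinarith)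
  have hjj := hj0 j hj
  rw [← hK] at hjj
  have hCm : C ≤ m := by omega
  have hKm : K + 1 ≤ m := by omega
  have hm0m : m0 ≤ (m : ℝ) := by
    refine (Nat.le_ceil m0).trans ?_
    exact_mod_cast (by omega : ⌈m0⌉₊ ≤ m)
  have ht0j : t0 ≤ (2 : ℝ) ^ j := by
    refine (Nat.le_ceil t0).trans ?_
    have : ⌈t0⌉₊ ≤ 2 ^ j := by omega
    exact_mod_cast this
  refine ⟨hCm, hKm, ?_⟩
  obtain ⟨xr, hxr⟩ : ∃ xr : ℝ, xr = (m : ℝ) := ⟨_, rfl⟩
  obtain ⟨R, hR⟩ : ∃ R : ℝ, R = (2 : ℝ) ^ K := ⟨_, rfl⟩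
  have hm1 : 1 ≤ m := by omega
  have hx1 : 1 ≤ xr := by rw [hxr]; exact_mod_cast hm1
  have hR1 : 1 ≤ R := by rw [hR]; exact one_le_pow₀ (by norm_num)
  have hxt : xr = ((2 : ℝ) ^ j) ^ (8 * I.k + 1) := by
    rw [hxr, hm, ← pow_mul, mul_comm j]
    push_cast
    rfl
  have hRt : R = ((2 : ℝ) ^ j) ^ (4 * (n - I.k)) := by
    rw [hR, hK, ← pow_mul, mul_comm j]
  -- sizes of `X`, `Y`
  obtain ⟨X, hX⟩ : ∃ X : ℝ, X = (xE (2 * n + 1) C K m : ℝ) := ⟨_, rfl⟩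
  obtain ⟨Y, hY⟩ : ∃ Y : ℝ, Y = (yE (2 * n + 1) c K m : ℝ) := ⟨_, rfl⟩
  have hX1 : X ≤ a1 * xr := by rw [hX, hxr, ha1]; exact xE_le _ C K m hCm hKm
  have hX0 : 2 * xr ≤ X := by rw [hX, hxr]; exact le_xE _ C K m
  have hY1 : Y ≤ a2 * xr * R ^ 2 := by
    rw [hY, hxr, ha2, hcr, hR]
    refine (yE_le _ c K m (by omega) hm1).trans (le_of_eq ?_)
    ring
  have hY0 : 2 * xr * cr * R ^ 2 ≤ Y := by
    rw [hY, hxr, hcr, hR]
    exact le_yE _ c K m (by omega)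
  have hXn : 0 ≤ xE (2 * n + 1) C K m := by
    have h1 : 0 ≤ X := by linarith
    rw [hX] at h1
    exact_mod_cast h1
  have hYn : 0 ≤ yE (2 * n + 1) c K m := by
    have h1 : 0 ≤ Y := le_trans (by positivity) hY0
    rw [hY] at h1
    exact_mod_cast h1
  have hX00 : 0 ≤ X := by linarith
  have hY00 : 0 ≤ Y := le_trans (by positivity) hY0
  -- the rank
  obtain ⟨E, hE⟩ : ∃ E : Lam, E = xE (2 * n + 1) C K m • A + yE (2 * n + 1) (c0 π e) K m • L :=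
    ⟨_, rfl⟩
  obtain ⟨N, hN⟩ : ∃ N : ℕ, N = Module.finrank ℂ ((M.Sec E).map
    (LinearMap.funLeft ℂ ℂ (Subtype.val : I.Fib x → M.P))) := ⟨_, rfl⟩
  obtain ⟨an, han⟩ := Int.eq_ofNat_of_zero_le hXn
  obtain ⟨bn, hbn⟩ := Int.eq_ofNat_of_zero_le hYn
  have hEn : E = an • A + bn • L := by
    rw [hE, ← hc, han, hbn, natCast_zsmul, natCast_zsmul]
  have hXan : X = (an : ℝ) := by rw [hX, han]; simp
  have hYbn : Y = (bn : ℝ) := by rw [hY, hbn]; simp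
  have hR2 : 1 ≤ R ^ 2 := one_le_pow₀ hR1
  have hxR0 : 0 ≤ xr * R ^ 2 := by positivity
  have hN1 : c2 * xr ^ (2 * n - I.k) * R ^ (2 * (n - I.k)) ≤ N := by
    have h1 := hlow x hxR hxbad an bn xr R (by rw [hxr]; exact hm0m) hR1
      (by rw [← hXan]; linarith) (by rw [← hXan]; nlinarith) (by
        rw [← hYbn]
        have h3 : xr * R ^ 2 ≤ Y := by
          have h4 : xr * R ^ 2 ≤ (xr * R ^ 2) * (2 * cr) :=
            le_mul_of_one_le_right hxR0 (by linarith)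
          linarith
        exact h3.trans (le_mul_of_one_le_left hY00 (by linarith))) (by
        rw [← hYbn]
        have h3 : 0 ≤ a1 * (xr * R ^ 2) := by positivity
        nlinarith)
    rw [← hEn, ← hN, ← mul_assoc] at h1
    exact h1
  have hN2 : (N : ℝ) ≤ c3 * (xr ^ (2 * n) * R ^ (2 * n)) := by
    have h1 := hupp an bn xr R (I.Fib x) (by
        have h3 : (1 : ℝ) ≤ (an : ℝ) := by rw [← hXan]; linarith
        exact_mod_cast h3) hx1 hR1 (by rw [← hXan]; nlinarith) (by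
        rw [← hYbn]
        have h3 : 0 ≤ a1 * (xr * R ^ 2) := by positivity
        nlinarith)
    rw [← hEn, ← hN] at h1
    exact h1
  refine ⟨N, by rw [← hxr, ← hR]; exact hN1, by rw [← hxr, ← hR]; exact hN2, ?_⟩
  -- the class `B`
  obtain ⟨T0, hT0⟩ : ∃ T0 : ℕ, T0 = (4 * n + 1) * m := ⟨_, rfl⟩
  obtain ⟨Rz, hRz⟩ : ∃ Rz : ℤ, Rz = (4 * n + 1) * ((2 ^ K : ℕ) : ℤ) := ⟨_, rfl⟩
  obtain ⟨X', hX'⟩ : ∃ X' : ℤ, X' = 2 * (xE (2 * n + 1) C K m + T0 * n1) + (2 * n + 1 : ℕ) :=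
    ⟨_, rfl⟩
  obtain ⟨Y', hY'⟩ : ∃ Y' : ℤ, Y' = yE (2 * n + 1) (c0 π e) K m +
    4 * (xE (2 * n + 1) C K m + T0 * n1) * (cb q π.b * Rz ^ 2) * q L A := ⟨_, rfl⟩
  obtain ⟨B, hB⟩ : ∃ B : Lam, B = X' • A + Y' • L := ⟨_, rfl⟩
  have hX'0 : 0 ≤ X' := by rw [hX']; positivity
  have hcb0 := cb_nonneg (q := q) π.b
  have hY'0 : 0 ≤ Y' := by
    rw [hY', ← hc]
    have : 0 ≤ 4 * (xE (2 * n + 1) C K m + T0 * n1) * (cb q π.b * Rz ^ 2) * q L A :=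
      mul_nonneg (mul_nonneg (by positivity) (mul_nonneg hcb0 (sq_nonneg _))) hLA.le
    linarith
  have hdom : ∀ g : Fin r → ℤ, (∀ i, |g i| ≤ (4 * n + 1) * ((2 ^ K : ℕ) : ℤ)) →
      ∀ t : ℕ, t ≤ (4 * n + 1) * m →
      B - M.pull (π.rho g) (E + t • I.N0) - (2 * n + 1) • A ∈ M.Nef := by
    intro g hg t ht
    rw [hB, hX', hY', hE]
    exact dominates_N0 hadd hsymm π hAmp hL hLL hLA.le I.N0 n1 hn1' _ _ Rz T0 hXn g
      (by rw [hRz]; exact hg) t (by rw [hT0]; exact ht)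
  have hBT : B - (m + (2 * n + 1)) • A ∈ M.Nef := by
    have h1 : B - (m + (2 * n + 1)) • A = (X' - (m + (2 * n + 1) : ℕ)) • A + Y' • L := by
      rw [hB]
      module
    rw [h1]
    refine M.nef_add _ (zsmul_nef M _ _ ?_ (M.ample_nef hAmp)) _ (zsmul_nef M _ _ hY'0 hL)
    have h2 : 2 * (m : ℤ) ≤ xE (2 * n + 1) C K m := by
      have h3 := le_xE (2 * n + 1) C K m
      exact_mod_cast h3
    have h3 : 0 ≤ (T0 : ℤ) * n1 := by positivity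
    rw [hX']
    push_cast
    linarith
  obtain ⟨Xr, hXr⟩ : ∃ Xr : ℝ, Xr = (X' : ℝ) := ⟨_, rfl⟩
  obtain ⟨Yr, hYr⟩ : ∃ Yr : ℝ, Yr = (Y' : ℝ) := ⟨_, rfl⟩
  have hXr0 : 0 ≤ Xr := by rw [hXr]; exact_mod_cast hX'0
  have hYr0 : 0 ≤ Yr := by rw [hYr]; exact_mod_cast hY'0
  have hqB : (q B B : ℝ) = Xr ^ 2 * ar + 2 * Xr * Yr * l := by
    rw [hB, q_comb hadd hsymm hLL, hXr, hYr, har, hl]
    push_cast
    ring
  have hqBL : (q B L : ℝ) = Xr * l := by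
    rw [hB, hadd, q_zsmul hadd, q_zsmul hadd, hLL, hsymm A L, hXr, hl]
    push_cast
    ring
  have hx'le : X + T0 * n1 ≤ b1 * xr := by
    have h1 : ((T0 : ℕ) : ℝ) = (4 * n + 1) * xr := by
      rw [hT0, hxr]
      push_cast
      ring
    rw [h1, hb1]
    have h2 : (4 * n + 1) * xr * (n1 : ℝ) = (4 * n + 1) * n1 * xr := by ring
    rw [h2, add_mul]
    linarith
  have hx'0 : 0 ≤ X + T0 * n1 := by positivity
  have hXrle : Xr ≤ b3 * xr := by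
    rw [hXr, hX', hb3]
    push_cast
    rw [← hX]
    have h1 : (2 * (n : ℝ) + 1) ≤ (2 * n + 1) * xr := le_mul_of_one_le_right (by positivity) hx1
    nlinarith
  have hRzR : (Rz : ℝ) = (4 * n + 1) * R := by
    rw [hRz, hR]
    push_cast
    ring
  have hYrle : Yr ≤ b2 * xr * 1 * R ^ 2 := by
    rw [hYr, hY', hb2, ← hc]
    push_cast
    rw [← hX, ← hY, hRzR, ← hb, ← hl]
    have h1 : 4 * (X + T0 * n1) * (b * ((4 * n + 1) * R) ^ 2) * l ≤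
        4 * (b1 * xr) * (b * ((4 * n + 1) * R) ^ 2) * l := by
      have h2 : 0 ≤ (b * ((4 * n + 1) * R) ^ 2) * l := by positivity
      have h3 := mul_le_mul_of_nonneg_right hx'le h2
      linarith
    have h2 : (a2 + 4 * b1 * (b * (4 * n + 1) ^ 2) * l) * xr * 1 * R ^ 2 =
        a2 * xr * R ^ 2 + 4 * (b1 * xr) * (b * ((4 * n + 1) * R) ^ 2) * l := by ring
    rw [h2]
    linarith
  have hcond : Cb * (q B B : ℝ) ^ (n - I.k) * (q B L : ℝ) ^ I.k <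
      (2 * (((2 ^ K : ℕ) : ℕ) : ℝ) + 1) ^ r * (m : ℝ) ^ I.k := by
    have hR' : (((2 ^ K : ℕ) : ℕ) : ℝ) = R := by
      rw [hR]
      push_cast
      rfl
    rw [hqB, hqBL, hR', ← hxr]
    refine size_cond Cb CB (b3 * l) ar l xr R Xr Yr (n - I.k) I.k r hCB0 (by positivity)
      ha0.le (by linarith) hx1 hR1 hXr0 hYr0 ?_ ?_ ?_
    · rw [hCB]
      exact q_le ar l 1 xr R Xr Yr b3 b2 ha0.le (by linarith) zero_le_one hx1 hR1 hb30 hXr0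
        hXrle hYr0 hYrle
    · have h1 := mul_le_mul_of_nonneg_right hXrle (by linarith : 0 ≤ l)
      calc Xr * l ≤ b3 * xr * l := h1
        _ = b3 * l * xr := by ring
    · have h1 := hcard ((2 : ℝ) ^ j) ht0j
      rw [← hxt, ← hRt] at h1
      exact h1
  -- the zero estimate and the determinant
  obtain ⟨g, tau, J, hg, htau, hdet⟩ := Pool.Agent.H8.HN.minor_jets hadd hsymm I π hA htriv a
    hspan e C hCw hC' K m x (I.reg_good x hxR) hx0 ((4 * n + 2) * ((2 ^ K : ℕ) : ℤ))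
    ((4 * n + 2) * m)
    (by
      rw [← hE]
      intro s hs hsne
      exact hCb (fun g => π.rho g) π.rho_zero π.rho_add htriv x hxR hdense (2 ^ K) m (by omega)
        E B hdom hBT hcond s hs hsne)
    N (by rw [← hE]; exact hN)
  refine ⟨g, tau, J, fun i s => ?_, htau, hdet⟩
  have h1 := hg i s
  push_cast at h1
  exact h1

end Pool.Agent.H74.HN
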