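import Mathlib

/-!
# Sections which are products of translates, with values in an algebra (jets)

This is the module GEN of helper30 with a parameter `w` (`w = 5` for fourfolds): `G - w A` nef
implies that `G` is regular for `A`; and with functions on `P` whose values are in a commutative
`ℂ`-algebra `S` (the jets of the sections at the points of `P`).

`cls n` is the pull back of a very ample class `A` by the automorphism `n`, and the `a j` are the
homogeneous coordinates.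
-/

namespace Pool.Agent.H74.HN.Jet

open Submodule

section

variable {P Lam S : Type*} [AddCommGroup Lam] [CommRing S] [Algebra ℂ S] {r k : ℕ}

/-- products of coordinates at the translates by the elements of a list -/
def prodSec (a : Fin (k + 1) → P → S) (act : (Fin r → ℤ) → P → P) :
    List (Fin r → ℤ) → Set (P → S)
  | [] => {1}
  | n :: l => {f | ∃ j, ∃ g ∈ prodSec a act l, f = (fun y => a j (act n y)) * g}

omit [Algebra ℂ S] in
theorem prodSec_form (a : Fin (k + 1) → P → S) (act : (Fin r → ℤ) → P → P)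
    (l : List (Fin r → ℤ)) : ∀ f ∈ prodSec a act l, ∃ J : Fin l.length → Fin (k + 1),
      f = fun y => ∏ i, a (J i) (act (l.get i) y) := by
  induction l with
  | nil =>
    rintro f rfl
    exact ⟨Fin.elim0, by funext y; simp⟩
  | cons n l ih =>
    rintro f ⟨j, g, hg, rfl⟩
    obtain ⟨J, rfl⟩ := ih g hg
    refine ⟨Fin.cons j J, ?_⟩
    funext y
    simp only [Pi.mul_apply, List.length_cons, Fin.prod_univ_succ, Fin.cons_zero, Fin.cons_succ]
    rfl

/-- all sections of `G` are combinations of products, up to a change of the trivialisation -/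
def Spanned (Sec : Lam → Submodule ℂ (P → S)) (a : Fin (k + 1) → P → S)
    (act : (Fin r → ℤ) → P → P) (G : Lam) (l : List (Fin r → ℤ)) : Prop :=
  ∃ u : P → S, (∀ y, IsUnit (u y)) ∧
    ∀ s ∈ Sec G, ∃ g ∈ span ℂ (prodSec a act l), s = u * g

omit [AddCommGroup Lam] in
theorem Spanned.combination {Sec : Lam → Submodule ℂ (P → S)} {a : Fin (k + 1) → P → S}
    {act : (Fin r → ℤ) → P → P} {G : Lam} {l : List (Fin r → ℤ)} (h : Spanned Sec a act G l) :
    ∃ u : P → S, (∀ y, IsUnit (u y)) ∧ ∀ s ∈ Sec G, ∃ c : (Fin l.length → Fin (k + 1)) → ℂ,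
      ∀ y, s y = u y * ∑ J, c J • ∏ i, a (J i) (act (l.get i) y) := by
  obtain ⟨u, hu, hs⟩ := h
  refine ⟨u, hu, fun s hsG => ?_⟩
  obtain ⟨g, hg, rfl⟩ := hs s hsG
  have h1 : prodSec a act l ⊆
      Set.range fun (J : Fin l.length → Fin (k + 1)) y => ∏ i, a (J i) (act (l.get i) y) := by
    intro f hf
    obtain ⟨J, rfl⟩ := prodSec_form a act l f hf
    exact ⟨J, rfl⟩
  obtain ⟨c, hc⟩ := (mem_span_range_iff_exists_fun ℂ).1 (span_mono h1 hg)
  refine ⟨c, fun y => ?_⟩
  rw [Pi.mul_apply, ← hc]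
  simp

/-- one more factor -/
theorem Spanned.cons {w : ℕ} {Sec : Lam → Submodule ℂ (P → S)} {a : Fin (k + 1) → P → S}
    {act : (Fin r → ℤ) → P → P} {Nef : Set Lam} {cls : (Fin r → ℤ) → Lam}
    (gen : ∀ G n, G - (w : ℤ) • cls n ∈ Nef →
      ∀ s ∈ Sec (G + cls n), s ∈ span ℂ {f | ∃ s1 ∈ Sec G, ∃ t ∈ Sec (cls n), f = s1 * t})
    (trans : ∀ n, ∃ u : P → S, (∀ y, IsUnit (u y)) ∧ ∀ t ∈ Sec (cls n),
      ∃ c : Fin (k + 1) → ℂ, ∀ y, t y = u y * ∑ j, c j • a j (act n y))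
    {G : Lam} {l : List (Fin r → ℤ)} (h : Spanned Sec a act G l) {n : Fin r → ℤ}
    (hn : G - (w : ℤ) • cls n ∈ Nef) : Spanned Sec a act (G + cls n) (n :: l) := by
  obtain ⟨u, hu, hs⟩ := h
  obtain ⟨v, hv, ht⟩ := trans n
  refine ⟨u * v, fun y => (hu y).mul (hv y), fun s hsG => ?_⟩
  have h1 := gen G n hn s hsG
  have h2 : span ℂ {f | ∃ s1 ∈ Sec G, ∃ t ∈ Sec (cls n), f = s1 * t} ≤
      (span ℂ (prodSec a act (n :: l))).map (LinearMap.mulLeft ℂ (u * v)) := by
    rw [span_le]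
    rintro f ⟨s1, hs1, t, htn, rfl⟩
    obtain ⟨g, hg, rfl⟩ := hs s1 hs1
    obtain ⟨c, hc⟩ := ht t htn
    refine ⟨(∑ j, c j • fun y => a j (act n y)) * g, ?_, ?_⟩
    · rw [Finset.sum_mul]
      refine sum_mem fun j _ => ?_
      rw [smul_mul_assoc]
      refine smul_mem _ _ ?_
      -- multiplication with one coordinate
      have h3 : span ℂ (prodSec a act l) ≤ (span ℂ (prodSec a act (n :: l))).comap
          (LinearMap.mulLeft ℂ fun y => a j (act n y)) := by
        rw [span_le]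
        intro f hf
        exact subset_span ⟨j, f, hf, rfl⟩
      exact h3 hg
    · have h4 : t = v * ∑ j, c j • fun y => a j (act n y) := by
        funext y
        rw [hc y, Pi.mul_apply]
        simp
      rw [LinearMap.mulLeft_apply, h4]
      ring
  obtain ⟨g, hg, hgs⟩ := h2 h1
  exact ⟨g, hg, by rw [← hgs, LinearMap.mulLeft_apply]⟩

/-- many more factors -/
theorem Spanned.append {w : ℕ} {Sec : Lam → Submodule ℂ (P → S)} {a : Fin (k + 1) → P → S}
    {act : (Fin r → ℤ) → P → P} {Nef : Set Lam} {cls : (Fin r → ℤ) → Lam}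
    (nef_add : ∀ x ∈ Nef, ∀ y ∈ Nef, x + y ∈ Nef) (cls_nef : ∀ n, cls n ∈ Nef)
    (gen : ∀ G n, G - (w : ℤ) • cls n ∈ Nef →
      ∀ s ∈ Sec (G + cls n), s ∈ span ℂ {f | ∃ s1 ∈ Sec G, ∃ t ∈ Sec (cls n), f = s1 * t})
    (trans : ∀ n, ∃ u : P → S, (∀ y, IsUnit (u y)) ∧ ∀ t ∈ Sec (cls n),
      ∃ c : Fin (k + 1) → ℂ, ∀ y, t y = u y * ∑ j, c j • a j (act n y))
    {G : Lam} {l : List (Fin r → ℤ)} (h : Spanned Sec a act G l) (n : Fin r → ℤ)
    (hn : G - (w : ℤ) • cls n ∈ Nef) (b : ℕ) :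
    Spanned Sec a act (b • cls n + G) (List.replicate b n ++ l) ∧
      ∀ n', G - (w : ℤ) • cls n' ∈ Nef → b • cls n + G - (w : ℤ) • cls n' ∈ Nef := by
  induction b with
  | zero => simpa using h
  | succ b ih =>
    have h1 : (b + 1) • cls n + G = (b • cls n + G) + cls n := by rw [succ_nsmul]; abel
    refine ⟨?_, ?_⟩
    · rw [h1, List.replicate_succ, List.cons_append]
      exact ih.1.cons gen trans (ih.2 n hn)
    · intro n' hn'
      have h2 : (b + 1) • cls n + G - (w : ℤ) • cls n' =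
          cls n + (b • cls n + G - (w : ℤ) • cls n') := by rw [h1]; abel
      rw [h2]
      exact nef_add _ (cls_nef n) _ (ih.2 n' hn')

/-- `2^j e` and its negative, `4 w` times each, for `j = 0, .., K - 1`, and `C` times `0` -/
def lst (w : ℕ) (e : Fin r → ℤ) (C : ℕ) : ℕ → List (Fin r → ℤ)
  | 0 => List.replicate C 0
  | K + 1 => List.replicate (4 * w) ((2 ^ K : ℤ) • e) ++
      (List.replicate (4 * w) (-((2 ^ K : ℤ) • e)) ++ lst w e C K)

/-- the list of all translates -/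
def lstAll (w : ℕ) (e : Fin r → ℤ) (C K m : ℕ) : List (Fin r → ℤ) :=
  List.replicate m ((2 ^ K : ℤ) • e) ++
    (List.replicate m (-((2 ^ K : ℤ) • e)) ++ lst w e C (K + 1))

/-- `1 + 4 + .. + 4^(K - 1)` -/
def geo (K : ℕ) : ℕ := ∑ j ∈ Finset.range K, 4 ^ j

theorem length_lst (w : ℕ) (e : Fin r → ℤ) (C K : ℕ) : (lst w e C K).length = C + 8 * w * K := by
  induction K with
  | zero => simp [lst]
  | succ K ih =>
    simp only [lst, List.length_append, List.length_replicate, ih]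
    ring

theorem length_lstAll (w : ℕ) (e : Fin r → ℤ) (C K m : ℕ) :
    (lstAll w e C K m).length = C + 8 * w * (K + 1) + 2 * m := by
  simp only [lstAll, List.length_append, List.length_replicate, length_lst]
  ring

theorem mem_lst (w : ℕ) (e : Fin r → ℤ) (C K : ℕ) (g : Fin r → ℤ) (hg : g ∈ lst w e C (K + 1)) (i : Fin r) :
    |g i| ≤ 2 ^ K * |e i| := by
  induction K with
  | zero =>
    simp only [lst, List.mem_append, List.mem_replicate] at hg
    rcases hg with ⟨-, rfl⟩ | ⟨-, rfl⟩ | ⟨-, rfl⟩ <;> simp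
  | succ K ih =>
    rw [lst] at hg
    simp only [List.mem_append, List.mem_replicate] at hg
    rcases hg with ⟨-, rfl⟩ | ⟨-, rfl⟩ | hg
    · simp [abs_mul]
    · simp [abs_mul]
    · refine (ih hg).trans (mul_le_mul_of_nonneg_right ?_ (abs_nonneg _))
      exact pow_le_pow_right₀ (by norm_num) (Nat.le_succ K)

theorem mem_lstAll (w : ℕ) (e : Fin r → ℤ) (C K m : ℕ) (g : Fin r → ℤ) (hg : g ∈ lstAll w e C K m)
    (i : Fin r) : |g i| ≤ 2 ^ K * |e i| := by
  simp only [lstAll, List.mem_append, List.mem_replicate] at hg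
  rcases hg with ⟨-, rfl⟩ | ⟨-, rfl⟩ | hg
  · simp [abs_mul]
  · simp [abs_mul]
  · exact mem_lst w e C K g hg i

omit [Algebra ℂ S] in
theorem prodSec_replicate {a : Fin (k + 1) → P → S} {act : (Fin r → ℤ) → P → P}
    (act_zero : ∀ y, act 0 y = y) (b : ℕ) (J : Fin b → Fin (k + 1)) :
    (fun y => ∏ i, a (J i) y) ∈ prodSec a act (List.replicate b 0) := by
  induction b with
  | zero =>
    simp only [Finset.univ_eq_empty, Finset.prod_empty, List.replicate_zero, prodSec,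
      Set.mem_singleton_iff]
    rfl
  | succ b ih =>
    rw [List.replicate_succ]
    refine ⟨J 0, _, ih fun i => J i.succ, ?_⟩
    funext y
    rw [Fin.prod_univ_succ, Pi.mul_apply, act_zero]

/-- the class of the list `lst w e C K` -/
def clsLst (w : ℕ) (A L : Lam) (c₀ : ℤ) (C K : ℕ) : Lam :=
  ((C : ℤ) + 8 * w * K) • A + (8 * w * c₀ * geo K) • L

/-- **Generation.** All sections of the class `x A + y L` with `x = C + 8 w (K + 1) + 2 m` and
`y = 8 w c₀ (1 + 4 + .. + 4^K) + 2 m c₀ 4^K` are combinations of products of translates of the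
coordinates. -/
theorem generation (w : ℕ) {Sec : Lam → Submodule ℂ (P → S)} {a : Fin (k + 1) → P → S}
    {act : (Fin r → ℤ) → P → P} (act_zero : ∀ y, act 0 y = y) {Nef : Set Lam}
    {cls : (Fin r → ℤ) → Lam} (nef_add : ∀ x ∈ Nef, ∀ y ∈ Nef, x + y ∈ Nef)
    (nef_zero : (0 : Lam) ∈ Nef) (cls_nef : ∀ n, cls n ∈ Nef)
    (gen : ∀ G n, G - (w : ℤ) • cls n ∈ Nef →
      ∀ s ∈ Sec (G + cls n), s ∈ span ℂ {f | ∃ s1 ∈ Sec G, ∃ t ∈ Sec (cls n), f = s1 * t})
    (trans : ∀ n, ∃ u : P → S, (∀ y, IsUnit (u y)) ∧ ∀ t ∈ Sec (cls n),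
      ∃ c : Fin (k + 1) → ℂ, ∀ y, t y = u y * ∑ j, c j • a j (act n y))
    (five : ∃ u : P → S, (∀ y, IsUnit (u y)) ∧ ∀ s ∈ Sec ((w : ℤ) • cls 0),
      ∃ c : (Fin w → Fin (k + 1)) → ℂ, ∀ y, s y = u y * ∑ J, c J • ∏ i, a (J i) y)
    (L : Lam) (c₀ : ℤ) (e : Fin r → ℤ)
    (sum : ∀ j : ℕ, cls ((2 ^ j : ℤ) • e) + cls (-((2 ^ j : ℤ) • e)) =
      (2 : ℤ) • cls 0 + (2 * 4 ^ j * c₀) • L)
    (C : ℕ) (hC : w ≤ C)
    (hC' : (C : ℤ) • cls 0 - (w : ℤ) • ((2 : ℤ) • cls 0 + (2 * c₀) • L) ∈ Nef) (K m : ℕ) :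
    ∃ u : P → S, (∀ y, IsUnit (u y)) ∧
      ∀ s ∈ Sec (((C : ℤ) + 8 * w * (K + 1) + 2 * m) • cls 0 +
        (8 * w * c₀ * geo (K + 1) + 2 * m * c₀ * 4 ^ K) • L),
      ∃ c : (Fin (lstAll w e C K m).length → Fin (k + 1)) → ℂ, ∀ y, s y =
        u y * ∑ J, c J • ∏ i, a (J i) (act ((lstAll w e C K m).get i) y) := by
  have nsmul_nef : ∀ (b : ℕ) x, x ∈ Nef → b • x ∈ Nef := by
    intro b x hx
    induction b with
    | zero => simpa using nef_zero
    | succ b ih => rw [succ_nsmul]; exact nef_add _ ih _ hx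
  have app := fun {G l} (h : Spanned Sec a act G l) n hn b =>
    h.append nef_add cls_nef gen trans n hn b
  -- the zeros
  have base : Spanned Sec a act (clsLst w (cls 0) L c₀ C 0) (lst w e C 0) := by
    have h5 : Spanned Sec a act ((w : ℤ) • cls 0) (List.replicate w 0) := by
      obtain ⟨u, hu, hs⟩ := five
      refine ⟨u, hu, fun s hsG => ?_⟩
      obtain ⟨c, hc⟩ := hs s hsG
      refine ⟨∑ J, c J • fun y => ∏ i, a (J i) y, ?_, ?_⟩
      · exact sum_mem fun J _ => smul_mem _ _ (subset_span (prodSec_replicate act_zero w J))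
      · funext y
        rw [hc y]
        simp
    have h := (app h5 0 (by rw [sub_self]; exact nef_zero) (C - w)).1
    have h1 : (C - w) • cls 0 + (w : ℤ) • cls 0 = clsLst w (cls 0) L c₀ C 0 := by
      have h2 : ((C : ℤ)) = ((C - w : ℕ) : ℤ) + w := by omega
      simp only [clsLst, geo, Finset.range_zero, Finset.sum_empty]
      rw [h2]
      push_cast
      simp only [mul_zero, add_zero, zero_smul, add_smul, natCast_zsmul]
    rw [h1, ← List.replicate_add, Nat.sub_add_cancel hC] at h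
    exact h
  -- the classes
  have hstep : ∀ K : ℕ, clsLst w (cls 0) L c₀ C (K + 1) = (4 * w) • cls ((2 ^ K : ℤ) • e) +
      ((4 * w) • cls (-((2 ^ K : ℤ) • e)) + clsLst w (cls 0) L c₀ C K) := by
    intro K
    have h1 : (4 * w) • cls ((2 ^ K : ℤ) • e) + ((4 * w) • cls (-((2 ^ K : ℤ) • e)) +
        clsLst w (cls 0) L c₀ C K) = (4 * w) • (cls ((2 ^ K : ℤ) • e) + cls (-((2 ^ K : ℤ) • e))) +
        clsLst w (cls 0) L c₀ C K := by
      rw [smul_add]; abel
    rw [h1, sum K]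
    simp only [clsLst, geo, Finset.sum_range_succ]
    push_cast
    module
  have main : ∀ K : ℕ, Spanned Sec a act (clsLst w (cls 0) L c₀ C K) (lst w e C K) ∧
      clsLst w (cls 0) L c₀ C K - (w : ℤ) • cls ((2 ^ K : ℤ) • e) ∈ Nef ∧
      clsLst w (cls 0) L c₀ C K - (w : ℤ) • cls (-((2 ^ K : ℤ) • e)) ∈ Nef := by
    intro K
    induction K with
    | zero =>
      refine ⟨base, ?_, ?_⟩
      · have h1 : clsLst w (cls 0) L c₀ C 0 - (w : ℤ) • cls ((2 ^ 0 : ℤ) • e) =
            ((C : ℤ) • cls 0 - (w : ℤ) • ((2 : ℤ) • cls 0 + (2 * c₀) • L)) +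
              w • cls (-((2 ^ 0 : ℤ) • e)) := by
          have h2 : (2 : ℤ) • cls 0 + (2 * c₀) • L =
              cls ((2 ^ 0 : ℤ) • e) + cls (-((2 ^ 0 : ℤ) • e)) := by
            rw [sum 0]; simp
          rw [h2]
          simp only [clsLst, geo, Finset.range_zero, Finset.sum_empty]
          push_cast
          module
        rw [h1]
        exact nef_add _ hC' _ (nsmul_nef _ _ (cls_nef _))
      · have h1 : clsLst w (cls 0) L c₀ C 0 - (w : ℤ) • cls (-((2 ^ 0 : ℤ) • e)) =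
            ((C : ℤ) • cls 0 - (w : ℤ) • ((2 : ℤ) • cls 0 + (2 * c₀) • L)) +
              w • cls ((2 ^ 0 : ℤ) • e) := by
          have h2 : (2 : ℤ) • cls 0 + (2 * c₀) • L =
              cls ((2 ^ 0 : ℤ) • e) + cls (-((2 ^ 0 : ℤ) • e)) := by
            rw [sum 0]; simp
          rw [h2]
          simp only [clsLst, geo, Finset.range_zero, Finset.sum_empty]
          push_cast
          module
        rw [h1]
        exact nef_add _ hC' _ (nsmul_nef _ _ (cls_nef _))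
    | succ K ih =>
      obtain ⟨h1, h2, h3⟩ := ih
      have h4 := app h1 _ h3 (4 * w)
      have h5 := (app h4.1 _ (h4.2 _ h2) (4 * w)).1
      rw [← hstep] at h5
      have hK : clsLst w (cls 0) L c₀ C K ∈ Nef := by
        have : clsLst w (cls 0) L c₀ C K = (clsLst w (cls 0) L c₀ C K -
            (w : ℤ) • cls ((2 ^ K : ℤ) • e)) + w • cls ((2 ^ K : ℤ) • e) := by
          module
        rw [this]
        exact nef_add _ h2 _ (nsmul_nef _ _ (cls_nef _))
      have h6 : clsLst w (cls 0) L c₀ C (K + 1) = (6 * w) • cls 0 + clsLst w (cls 0) L c₀ C K +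
          (w : ℤ) • (cls ((2 ^ (K + 1) : ℤ) • e) + cls (-((2 ^ (K + 1) : ℤ) • e))) := by
        rw [sum (K + 1)]
        simp only [clsLst, geo, Finset.sum_range_succ]
        push_cast
        module
      have h7 : (6 * w) • cls 0 + clsLst w (cls 0) L c₀ C K ∈ Nef :=
        nef_add _ (nsmul_nef _ _ (cls_nef _)) _ hK
      refine ⟨h5, ?_, ?_⟩
      · have h8 : clsLst w (cls 0) L c₀ C (K + 1) - (w : ℤ) • cls ((2 ^ (K + 1) : ℤ) • e) =
            (6 * w) • cls 0 + clsLst w (cls 0) L c₀ C K + w • cls (-((2 ^ (K + 1) : ℤ) • e)) := by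
          rw [h6]; module
        rw [h8]
        exact nef_add _ h7 _ (nsmul_nef _ _ (cls_nef _))
      · have h8 : clsLst w (cls 0) L c₀ C (K + 1) - (w : ℤ) • cls (-((2 ^ (K + 1) : ℤ) • e)) =
            (6 * w) • cls 0 + clsLst w (cls 0) L c₀ C K + w • cls ((2 ^ (K + 1) : ℤ) • e) := by
          rw [h6]; module
        rw [h8]
        exact nef_add _ h7 _ (nsmul_nef _ _ (cls_nef _))
  -- the last factors
  obtain ⟨h1, h2, h3⟩ := main (K + 1)
  obtain ⟨-, h4, h5⟩ := main K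
  have h6 : clsLst w (cls 0) L c₀ C (K + 1) - (w : ℤ) • cls ((2 ^ K : ℤ) • e) ∈ Nef := by
    have h7 : clsLst w (cls 0) L c₀ C (K + 1) - (w : ℤ) • cls ((2 ^ K : ℤ) • e) =
        (4 * w) • cls ((2 ^ K : ℤ) • e) + ((4 * w) • cls (-((2 ^ K : ℤ) • e)) +
          (clsLst w (cls 0) L c₀ C K - (w : ℤ) • cls ((2 ^ K : ℤ) • e))) := by
      rw [hstep]; abel
    rw [h7]
    exact nef_add _ (nsmul_nef _ _ (cls_nef _)) _ (nef_add _ (nsmul_nef _ _ (cls_nef _)) _ h4)
  have h7 : clsLst w (cls 0) L c₀ C (K + 1) - (w : ℤ) • cls (-((2 ^ K : ℤ) • e)) ∈ Nef := by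
    have h7 : clsLst w (cls 0) L c₀ C (K + 1) - (w : ℤ) • cls (-((2 ^ K : ℤ) • e)) =
        (4 * w) • cls ((2 ^ K : ℤ) • e) + ((4 * w) • cls (-((2 ^ K : ℤ) • e)) +
          (clsLst w (cls 0) L c₀ C K - (w : ℤ) • cls (-((2 ^ K : ℤ) • e)))) := by
      rw [hstep]; abel
    rw [h7]
    exact nef_add _ (nsmul_nef _ _ (cls_nef _)) _ (nef_add _ (nsmul_nef _ _ (cls_nef _)) _ h5)
  have h8 := app h1 _ h7 m
  have h9 := (app h8.1 _ (h8.2 _ h6) m).1
  have h10 : m • cls ((2 ^ K : ℤ) • e) + (m • cls (-((2 ^ K : ℤ) • e)) +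
      clsLst w (cls 0) L c₀ C (K + 1)) = ((C : ℤ) + 8 * w * (K + 1) + 2 * m) • cls 0 +
        (8 * w * c₀ * geo (K + 1) + 2 * m * c₀ * 4 ^ K) • L := by
    have h11 : m • cls ((2 ^ K : ℤ) • e) + (m • cls (-((2 ^ K : ℤ) • e)) +
        clsLst w (cls 0) L c₀ C (K + 1)) = (m : ℤ) • (cls ((2 ^ K : ℤ) • e) +
        cls (-((2 ^ K : ℤ) • e))) + clsLst w (cls 0) L c₀ C (K + 1) := by
      module
    rw [h11, sum K]
    simp only [clsLst]
    push_cast
    module
  rw [h10] at h9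
  exact h9.combination

end

end Pool.Agent.H74.HN.Jet
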