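import Pool.Agent.H74.HN.Classes
import Pool.Agent.H74.HN.GENA
import Pool.Agent.H13.HN.Iitaka

/-!
# Generation of the jets of the sections of `E` by products of translates
-/

namespace Pool.Agent.H74.HN

open scoped BigOperators
open Submodule Pool.Agent.H83.HN Pool.Agent.H13.HN

variable {n : ℕ} {Lam : Type} [AddCommGroup Lam] {q : Lam → Lam → ℤ} {M : Manifold n Lam q}
  {L A : Lam} {r : ℕ}

/-! ### jets -/

section jets

variable (I : Iitaka M L)

theorem J_zero (y : M.P) (hy : I.s 0 y ≠ 0) (G : Lam) : I.J y G 0 = 0 := by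
  have h := I.J_smul y hy G 0 0 (M.Sec G).zero_mem
  rwa [zero_smul, map_zero, zero_mul] at h

theorem J_sum (y : M.P) (hy : I.s 0 y ≠ 0) (G : Lam) {ι : Type*} (s : Finset ι)
    (f : ι → M.P → ℂ) (hf : ∀ i ∈ s, f i ∈ M.Sec G) :
    I.J y G (∑ i ∈ s, f i) = ∑ i ∈ s, I.J y G (f i) := by
  classical
  induction s using Finset.induction_on with
  | empty => simpa using J_zero I y hy G
  | insert a s ha ih =>
    rw [Finset.sum_insert ha, Finset.sum_insert ha,
      I.J_add y hy G _ (hf a (Finset.mem_insert_self a s)) _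
        ((M.Sec G).sum_mem fun i hi => hf i (Finset.mem_insert_of_mem hi)),
      ih fun i hi => hf i (Finset.mem_insert_of_mem hi)]

theorem one_mem (hA : A ∈ M.VeryAmple) : (1 : M.P → ℂ) ∈ M.Sec 0 := by
  have h := M.normal A hA 0
  rw [zero_smul] at h
  rw [h]
  exact subset_span ⟨Fin.elim0, fun i => i.elim0, by simp⟩

theorem J_one (hA : A ∈ M.VeryAmple) (y : M.P) (hy : I.s 0 y ≠ 0) : I.J y 0 1 = 1 := by
  have h1 := one_mem hA
  have h2 := I.J_mul y hy 0 0 1 h1 1 h1
  rw [add_zero, mul_one] at h2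
  have h3 := I.J_val y hy 0 1 h1
  have h4 : I.J y 0 1 ≠ 0 := by
    intro h0
    rw [h0, map_zero, Pi.one_apply] at h3
    exact zero_ne_one h3
  have h5 : I.J y 0 1 * (I.J y 0 1 - 1) = 0 := by
    linear_combination -h2
  rcases mul_eq_zero.1 h5 with h6 | h6
  · exact absurd h6 h4
  · exact sub_eq_zero.1 h6

theorem J_prod (hA : A ∈ M.VeryAmple) (y : M.P) (hy : I.s 0 y ≠ 0) (m : ℕ)
    (t : Fin m → M.P → ℂ) (ht : ∀ i, t i ∈ M.Sec A) :
    (∏ i, t i) ∈ M.Sec (m • A) ∧ I.J y (m • A) (∏ i, t i) = ∏ i, I.J y A (t i) := by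
  induction m with
  | zero =>
    simp only [Finset.univ_eq_empty, Finset.prod_empty, zero_smul]
    exact ⟨one_mem hA, J_one I hA y hy⟩
  | succ m ih =>
    obtain ⟨h1, h2⟩ := ih (fun i => t i.succ) fun i => ht i.succ
    rw [Fin.prod_univ_succ, Fin.prod_univ_succ, succ_nsmul', I.J_mul y hy A (m • A) _ (ht 0) _ h1,
      h2]
    exact ⟨M.sec_mul _ _ _ (ht 0) _ h1, rfl⟩

/-- the points where the jets are defined -/
abbrev Good : Type := {y : M.P // I.s 0 y ≠ 0}

/-- the jets of the sections of `G`, as functions of the point -/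
noncomputable def SecJ (G : Lam) : Submodule ℂ (Good I → MvPowerSeries (Fin I.k) ℂ) where
  carrier := {f | ∃ s ∈ M.Sec G, f = fun y => I.J y.1 G s}
  add_mem' := by
    rintro _ _ ⟨s, hs, rfl⟩ ⟨t, ht, rfl⟩
    refine ⟨s + t, (M.Sec G).add_mem hs ht, ?_⟩
    funext y
    rw [I.J_add y.1 y.2 G s hs t ht]
    rfl
  zero_mem' := ⟨0, (M.Sec G).zero_mem, by
    funext y
    rw [J_zero I y.1 y.2]
    rfl⟩
  smul_mem' := by
    rintro c _ ⟨s, hs, rfl⟩
    refine ⟨c • s, (M.Sec G).smul_mem c hs, ?_⟩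
    funext y
    rw [I.J_smul y.1 y.2 G c s hs, Pi.smul_apply, MvPowerSeries.smul_eq_C_mul]

end jets

/-- the first coefficient of `E` -/
def xE (w C K m : ℕ) : ℤ := (C : ℤ) + 8 * w * (K + 1) + 2 * m

/-- the second coefficient of `E` -/
def yE (w : ℕ) (c₀ : ℤ) (K m : ℕ) : ℤ := 8 * w * c₀ * Jet.geo (K + 1) + 2 * m * c₀ * 4 ^ K

/-- the constant `c₀` of an element `e` -/
def c0 (π : Para M L A r) (e : Fin r → ℤ) : ℤ := -2 * q (π.b e) (π.b e) * q L A

/-- products of sums are sums of products -/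
theorem prod_mem_products {P S : Type*} [CommRing S] [Algebra ℂ S] {w k : ℕ}
    (a : Fin (k + 1) → P → S) (t : Fin w → P → S)
    (c : Fin w → Fin (k + 1) → ℂ) (ht : ∀ i y, t i y = ∑ j, c i j • a j y) (y : P) :
    ∏ i, t i y = ∑ J : Fin w → Fin (k + 1), (∏ i, c i (J i)) • ∏ i, a (J i) y := by
  have h2 : ∏ i, t i y = ∏ i, ∑ j, c i j • a j y := Finset.prod_congr rfl fun i _ => ht i y
  rw [h2, Finset.prod_univ_sum, Fintype.piFinset_univ]
  refine Finset.sum_congr rfl fun J _ => ?_
  simp only [Algebra.smul_def, Finset.prod_mul_distrib, map_prod]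

/-- **GENJ.** The jets of all sections of `E` are, up to a unit, combinations of products of jets
of translates of coordinates. -/
theorem generation_jets (hadd : ∀ x y z, q (x + y) z = q x z + q y z)
    (hsymm : ∀ x y, q x y = q y x) (I : Iitaka M L) (π : Para M L A r) (hA : A ∈ M.VeryAmple)
    (htriv : ∀ g, π.rho g ∈ I.triv) {k : ℕ}
    (a : Fin (k + 1) → M.P → ℂ) (hspan : span ℂ (Set.range a) = M.Sec A)
    (e : Fin r → ℤ) (C : ℕ) (hC : 2 * n + 1 ≤ C)
    (hC' : (C : ℤ) • A - ((2 * n + 1 : ℕ) : ℤ) • ((2 : ℤ) • A + (2 * c0 π e) • L) ∈ M.Nef)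
    (K m : ℕ) :
    ∃ U : M.P → MvPowerSeries (Fin I.k) ℂ, (∀ y, I.s 0 y ≠ 0 → IsUnit (U y)) ∧
      ∀ s ∈ M.Sec (xE (2 * n + 1) C K m • A + yE (2 * n + 1) (c0 π e) K m • L),
      ∃ c : (Fin (Jet.lstAll (2 * n + 1) e C K m).length → Fin (k + 1)) → ℂ,
        ∀ y, I.s 0 y ≠ 0 →
        I.J y (xE (2 * n + 1) C K m • A + yE (2 * n + 1) (c0 π e) K m • L) s =
        U y * ∑ J, c J • ∏ i,
          I.J (π.rho ((Jet.lstAll (2 * n + 1) e C K m).get i) • y) A (a (J i)) := by
  classical
  have hz := pull_zero π A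
  have hva : ∀ g, M.pull (π.rho g) A ∈ M.VeryAmple := fun g => M.va_pull _ _ hA
  have hfive : ∀ x : Lam, ((2 * n + 1 : ℕ) : ℤ) • x = (2 * n + 1) • x := fun x =>
    natCast_zsmul x (2 * n + 1)
  have hamem : ∀ j, a j ∈ M.Sec A := fun j => by
    rw [← hspan]
    exact subset_span (Set.mem_range_self j)
  -- the jet of a section of `A`
  have hsecA : ∀ t ∈ M.Sec A, ∃ c : Fin (k + 1) → ℂ, ∀ y, I.s 0 y ≠ 0 →
      I.J y A t = ∑ j, c j • I.J y A (a j) := by
    intro t ht
    rw [← hspan] at ht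
    obtain ⟨c, hc⟩ := (mem_span_range_iff_exists_fun ℂ).1 ht
    refine ⟨c, fun y hy => ?_⟩
    rw [← hc, J_sum I y hy A _ _ fun j _ => (M.Sec A).smul_mem _ (hamem j)]
    refine Finset.sum_congr rfl fun j _ => ?_
    rw [I.J_smul y hy A (c j) (a j) (hamem j), MvPowerSeries.smul_eq_C_mul]
  let act : (Fin r → ℤ) → Good I → Good I := fun g y =>
    ⟨π.rho g • y.1, I.triv_good _ (htriv g) y.1 y.2⟩
  have act_zero : ∀ y, act 0 y = y := by
    intro y
    apply Subtype.ext
    change π.rho 0 • y.1 = y.1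
    rw [π.rho_zero, one_smul]
  obtain ⟨U, hU, hs⟩ := Jet.generation (2 * n + 1) (S := MvPowerSeries (Fin I.k) ℂ)
    (Sec := SecJ I) (a := fun j y => I.J y.1 A (a j)) (act := act) act_zero (Nef := M.Nef)
    (cls := fun g => M.pull (π.rho g) A)
    M.nef_add M.nef_zero (fun g => M.ample_nef (M.va_ample (hva g)))
    (fun G g hG f hf => by
      obtain ⟨s, hs, rfl⟩ := hf
      rw [hfive] at hG
      rw [M.regular _ (hva g) G hG] at hs
      induction hs using Submodule.span_induction with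
      | mem s hs =>
        obtain ⟨s1, hs1, t, ht, rfl⟩ := hs
        refine subset_span ⟨_, ⟨s1, hs1, rfl⟩, _, ⟨t, ht, rfl⟩, ?_⟩
        funext y
        rw [I.J_mul y.1 y.2 _ _ s1 hs1 t ht]
        rfl
      | zero =>
        have : (fun y : Good I => I.J y.1 (G + M.pull (π.rho g) A) 0) = 0 := by
          funext y
          exact J_zero I y.1 y.2 _
        rw [this]
        exact zero_mem _
      | add s t hs' ht' hs ht =>
        rw [← M.regular _ (hva g) G hG] at hs' ht'
        have : (fun y : Good I => I.J y.1 (G + M.pull (π.rho g) A) (s + t)) =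
            (fun y : Good I => I.J y.1 (G + M.pull (π.rho g) A) s) +
            (fun y : Good I => I.J y.1 (G + M.pull (π.rho g) A) t) := by
          funext y
          exact I.J_add y.1 y.2 _ s hs' t ht'
        rw [this]
        exact add_mem hs ht
      | smul c s hs' hs =>
        rw [← M.regular _ (hva g) G hG] at hs'
        have : (fun y : Good I => I.J y.1 (G + M.pull (π.rho g) A) (c • s)) =
            c • (fun y : Good I => I.J y.1 (G + M.pull (π.rho g) A) s) := by
          funext y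
          rw [I.J_smul y.1 y.2 _ c s hs', Pi.smul_apply, MvPowerSeries.smul_eq_C_mul]
        rw [this]
        exact smul_mem _ _ hs)
    (fun g => by
      obtain ⟨v, hv, hs⟩ := M.pull_sec (π.rho g) A
      choose! U hU using fun (y : Good I) => I.J_pull (π.rho g) (htriv g) y.1 y.2 A v hv hs
      refine ⟨U, fun y => ?_, fun f hf => ?_⟩
      · rw [MvPowerSeries.isUnit_iff_constantCoeff]
        exact isUnit_iff_ne_zero.2 (hU y).1
      · obtain ⟨s, hs1, rfl⟩ := hf
        obtain ⟨t, ht, hst⟩ := (hs s).1 hs1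
        obtain ⟨c, hc⟩ := hsecA t ht
        refine ⟨c, fun y => ?_⟩
        have h1 : s = fun y' => v y' * t (π.rho g • y') := funext hst
        rw [h1]
        exact ((hU y).2 t ht).trans (congrArg (U y * ·) (hc _ (act g y).2)))
    (by
      refine ⟨fun _ => 1, fun _ => isUnit_one, fun f hf => ?_⟩
      obtain ⟨s, hs, rfl⟩ := hf
      simp only [hz, hfive, one_mul] at hs ⊢
      rw [M.normal A hA (2 * n + 1)] at hs
      induction hs using Submodule.span_induction with
      | mem s hs =>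
        obtain ⟨t, ht, rfl⟩ := hs
        choose c hc using fun i => hsecA (t i) (ht i)
        refine ⟨fun J => ∏ i, c i (J i), fun y => ?_⟩
        rw [(J_prod I hA y.1 y.2 _ t ht).2]
        exact prod_mem_products (fun j (y : Good I) => I.J y.1 A (a j))
          (fun i (y : Good I) => I.J y.1 A (t i)) c (fun i y => hc i y.1 y.2) y
      | zero => exact ⟨0, fun y => by rw [J_zero I y.1 y.2]; simp⟩
      | add s t hs' ht' hs ht =>
        rw [← M.normal A hA (2 * n + 1)] at hs' ht'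
        obtain ⟨c, hc⟩ := hs
        obtain ⟨c', hc'⟩ := ht
        refine ⟨c + c', fun y => ?_⟩
        rw [I.J_add y.1 y.2 _ s hs' t ht', hc y, hc' y]
        simp [add_smul, Finset.sum_add_distrib]
      | smul z s hs' hs =>
        rw [← M.normal A hA (2 * n + 1)] at hs'
        obtain ⟨c, hc⟩ := hs
        refine ⟨z • c, fun y => ?_⟩
        rw [I.J_smul y.1 y.2 _ z s hs', ← MvPowerSeries.smul_eq_C_mul, hc y, Finset.smul_sum]
        refine Finset.sum_congr rfl fun J _ => ?_
        rw [Pi.smul_apply, smul_eq_mul, mul_smul])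
    L (c0 π e) e (fun j => pull_sum_pow hadd hsymm π e j) C hC
    (by
      rw [hz]
      exact hC') K m
  refine ⟨fun y => if hy : I.s 0 y ≠ 0 then U ⟨y, hy⟩ else 1, fun y hy => ?_, fun s hsE => ?_⟩
  · beta_reduce
    rw [dif_pos hy]
    exact hU _
  · simp only [hz] at hs
    obtain ⟨c, hc⟩ := hs (fun y => I.J y.1 _ s) ⟨s, hsE, rfl⟩
    refine ⟨c, fun y hy => ?_⟩
    beta_reduce
    rw [dif_pos hy]
    exact hc ⟨y, hy⟩

end Pool.Agent.H74.HN
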